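import Mathlib

/-! Definitions for the problem on affine equivalence classes of `k`-point subsets. -/

namespace Pool.Agent.Lib.MP_b430f2_co

/-- `A` and `B` are affinely equivalent: some invertible affine map of `ℝ^d` maps `A` onto `B`. -/
def AffEquivalent {d : ℕ} (A B : Finset (Fin d → ℝ)) : Prop :=
  ∃ T : (Fin d → ℝ) ≃ᵃ[ℝ] (Fin d → ℝ), T '' (A : Set (Fin d → ℝ)) = (B : Set (Fin d → ℝ))

/-- The affine equivalence class of a finite set of points. -/
def affClass {d : ℕ} (A : Finset (Fin d → ℝ)) : Set (Finset (Fin d → ℝ)) :=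
  {B | AffEquivalent A B}

/-- `c_k(P)`: the number of affine equivalence classes that contain a `k`-point subset of `P`. -/
noncomputable def numClasses {d : ℕ} (k : ℕ) (P : Finset (Fin d → ℝ)) : ℕ :=
  Set.ncard {c : Set (Finset (Fin d → ℝ)) |
    ∃ A : Finset (Fin d → ℝ), A ⊆ P ∧ A.card = k ∧ c = affClass A}

/-- `f_d(k,n)`: the minimum of `c_k(P)` over all `n`-point sets `P` in `ℝ^d`. -/
noncomputable def fmin (d k n : ℕ) : ℕ :=
  sInf {m : ℕ | ∃ P : Finset (Fin d → ℝ), P.card = n ∧ numClasses k P = m}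

end Pool.Agent.Lib.MP_b430f2_co
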