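import Mathlib
import Pool.Agent.Lib.MP_b430f2_co.Defs

/-! Basic facts about affine classes. -/

namespace Pool.Agent.Lib.MP_b430f2_co

open Finset

variable {d : ℕ}

theorem AffEquivalent.refl (A : Finset (Fin d → ℝ)) : AffEquivalent A A :=
  ⟨AffineEquiv.refl ℝ _, by simp⟩

theorem AffEquivalent.symm {A B : Finset (Fin d → ℝ)} (h : AffEquivalent A B) :
    AffEquivalent B A := by
  obtain ⟨T, hT⟩ := h
  refine ⟨T.symm, ?_⟩
  rw [← hT, ← Set.image_comp]
  simp

theorem AffEquivalent.trans {A B C : Finset (Fin d → ℝ)} (h : AffEquivalent A B)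
    (h' : AffEquivalent B C) : AffEquivalent A C := by
  obtain ⟨T, hT⟩ := h
  obtain ⟨S, hS⟩ := h'
  refine ⟨T.trans S, ?_⟩
  rw [← hS, ← hT, ← Set.image_comp]
  rfl

theorem affClass_eq_iff {A B : Finset (Fin d → ℝ)} :
    affClass A = affClass B ↔ AffEquivalent A B := by
  constructor
  · intro h
    have : B ∈ affClass B := AffEquivalent.refl B
    rw [← h] at this
    exact this
  · intro h
    ext C
    exact ⟨fun hC => h.symm.trans hC, fun hC => h.trans hC⟩

/-- The set of classes of `k`-subsets of `P`. -/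
def classSet (k : ℕ) (P : Finset (Fin d → ℝ)) : Set (Set (Finset (Fin d → ℝ))) :=
  {c | ∃ A : Finset (Fin d → ℝ), A ⊆ P ∧ A.card = k ∧ c = affClass A}

theorem classSet_eq_image (k : ℕ) (P : Finset (Fin d → ℝ)) :
    classSet k P = affClass '' ((P.powersetCard k : Finset (Finset (Fin d → ℝ))) : Set _) := by
  ext c
  simp only [classSet, Set.mem_ofPred_eq, Set.mem_image, Finset.mem_coe, Finset.mem_powersetCard]
  constructor
  · rintro ⟨A, h1, h2, h3⟩
    exact ⟨A, ⟨h1, h2⟩, h3.symm⟩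
  · rintro ⟨A, ⟨h1, h2⟩, h3⟩
    exact ⟨A, h1, h2, h3.symm⟩

theorem classSet_finite (k : ℕ) (P : Finset (Fin d → ℝ)) : (classSet k P).Finite := by
  rw [classSet_eq_image]
  exact (Finset.finite_toSet _).image _

theorem numClasses_eq (k : ℕ) (P : Finset (Fin d → ℝ)) : numClasses k P = (classSet k P).ncard :=
  rfl

theorem numClasses_mono (k : ℕ) {P Q : Finset (Fin d → ℝ)} (h : P ⊆ Q) :
    numClasses k P ≤ numClasses k Q := by
  rw [numClasses_eq, numClasses_eq]
  apply Set.ncard_le_ncard _ (classSet_finite k Q)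
  rintro c ⟨A, h1, h2, h3⟩
  exact ⟨A, h1.trans h, h2, h3⟩

theorem fmin_le {k n : ℕ} (P : Finset (Fin d → ℝ)) (hP : P.card = n) :
    fmin d k n ≤ numClasses k P :=
  Nat.sInf_le ⟨P, hP, rfl⟩

theorem le_fmin {k n : ℕ} (hd : 1 ≤ d) {m : ℕ}
    (h : ∀ P : Finset (Fin d → ℝ), P.card = n → m ≤ numClasses k P) : m ≤ fmin d k n := by
  have hne : {m : ℕ | ∃ P : Finset (Fin d → ℝ), P.card = n ∧ numClasses k P = m}.Nonempty := by
    have : Nonempty (Fin d) := ⟨⟨0, hd⟩⟩
    obtain ⟨P, hP⟩ := Infinite.exists_subset_card_eq (Fin d → ℝ) n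
    exact ⟨_, P, hP, rfl⟩
  obtain ⟨P, hP, hPm⟩ := Nat.sInf_mem hne
  unfold fmin
  rw [← hPm]
  exact h P hP

/-- The map `p ↦ p + N p + w` for `N` with `N ∘ N = 0`. -/
def shear {V : Type*} [AddCommGroup V] [Module ℝ V] (N : V →ₗ[ℝ] V) (hN : N.comp N = 0) (w : V) :
    V ≃ᵃ[ℝ] V :=
  ((LinearEquiv.ofLinearMap (LinearMap.id + N) (LinearMap.id - N)
    (by
      rw [LinearMap.comp_sub, LinearMap.comp_id, LinearMap.add_comp, LinearMap.id_comp, hN]
      abel)
    (by
      rw [LinearMap.comp_add, LinearMap.comp_id, LinearMap.sub_comp, LinearMap.id_comp, hN]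
      abel)).toAffineEquiv).trans (AffineEquiv.constVAdd ℝ V w)

theorem shear_apply {V : Type*} [AddCommGroup V] [Module ℝ V] (N : V →ₗ[ℝ] V)
    (hN : N.comp N = 0) (w p : V) : shear N hN w p = p + N p + w := by
  simp [shear, add_comm]

end Pool.Agent.Lib.MP_b430f2_co
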