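import Mathlib

/-! Counting rich piecewise monotone graphs by a grid of cells. -/

namespace Pool.Agent.Lib.MP_b430f2_co

open Finset

set_option linter.unusedSectionVars false

variable {α : Type*} [DecidableEq α]

/-- `H` is the graph of a weakly monotone or weakly antitone relation with respect to `X`. -/
def IsChainFor (X : α → ℝ) (H : Finset (α × α)) : Prop :=
  (∀ p ∈ H, ∀ q ∈ H, X p.1 < X q.1 → X p.2 ≤ X q.2) ∨
  (∀ p ∈ H, ∀ q ∈ H, X p.1 < X q.1 → X q.2 ≤ X p.2)

/-- The number of elements of `Y` with smaller `X`-value. -/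
noncomputable def rankIn (Y : Finset α) (X : α → ℝ) (y : α) : ℕ :=
  (Y.filter (fun z => X z < X y)).card

theorem rankIn_mono (Y : Finset α) (X : α → ℝ) {y z : α} (h : X y ≤ X z) :
    rankIn Y X y ≤ rankIn Y X z := by
  apply Finset.card_le_card
  intro w hw
  rw [Finset.mem_filter] at hw ⊢
  exact ⟨hw.1, hw.2.trans_le h⟩

theorem rankIn_strict (Y : Finset α) (X : α → ℝ) {y z : α} (hy : y ∈ Y) (h : X y < X z) :
    rankIn Y X y < rankIn Y X z := by
  apply Finset.card_lt_card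
  rw [Finset.ssubset_iff_of_subset]
  · exact ⟨y, by simp [hy, h], by simp⟩
  · intro w hw
    rw [Finset.mem_filter] at hw ⊢
    exact ⟨hw.1, hw.2.trans h⟩

theorem rankIn_lt (Y : Finset α) (X : α → ℝ) {y : α} (hy : y ∈ Y) : rankIn Y X y < Y.card := by
  apply Finset.card_lt_card
  rw [Finset.ssubset_iff_of_subset (Finset.filter_subset _ _)]
  exact ⟨y, hy, by simp⟩

theorem rankIn_injOn (Y : Finset α) (X : α → ℝ) (hX : Set.InjOn X Y) :
    Set.InjOn (rankIn Y X) Y := by
  intro y hy z hz h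
  rcases lt_trichotomy (X y) (X z) with h1 | h1 | h1
  · exact absurd h (rankIn_strict Y X hy h1).ne
  · exact hX hy hz h1
  · exact absurd h (rankIn_strict Y X hz h1).ne'

/-- The number of cells met by a chain. -/
theorem card_cells_le {X : α → ℝ} {H : Finset (α × α)} {κ : α → ℕ} {r : ℕ} (hr : 1 ≤ r)
    (hκ : ∀ y z, X y ≤ X z → κ y ≤ κ z) (hb : ∀ p ∈ H, κ p.1 < r ∧ κ p.2 < r)
    (hfun : ∀ p ∈ H, ∀ q ∈ H, X p.1 = X q.1 → p = q) (hH : IsChainFor X H) :
    (H.image (fun p => (κ p.1, κ p.2))).card ≤ 2 * r - 1 := by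
  rcases hH with hH | hH
  · -- monotone: `a + b` is injective on cells
    have h1 : ((H.image (fun p => (κ p.1, κ p.2))).image (fun c => c.1 + c.2)).card ≤ 2 * r - 1 := by
      calc _ ≤ (Finset.range (2 * r - 1)).card := by
            apply Finset.card_le_card
            intro c hc
            simp only [Finset.mem_image] at hc
            obtain ⟨_, ⟨p, hp, rfl⟩, rfl⟩ := hc
            obtain ⟨h2, h3⟩ := hb p hp
            simp only [Finset.mem_range]
            omega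
        _ = 2 * r - 1 := Finset.card_range _
    refine le_trans (le_of_eq ?_) h1
    symm
    apply Finset.card_image_of_injOn
    intro c hc c' hc' h
    simp only [Finset.coe_image, Set.mem_image, Finset.mem_coe] at hc hc'
    obtain ⟨p, hp, rfl⟩ := hc
    obtain ⟨q, hq, rfl⟩ := hc'
    simp only at h
    rcases lt_trichotomy (X p.1) (X q.1) with h2 | h2 | h2
    · have h3 := hκ _ _ h2.le
      have h4 := hκ _ _ (hH p hp q hq h2)
      ext <;> simp only <;> omega
    · rw [hfun p hp q hq h2]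
    · have h3 := hκ _ _ h2.le
      have h4 := hκ _ _ (hH q hq p hp h2)
      ext <;> simp only <;> omega
  · have h1 : ((H.image (fun p => (κ p.1, κ p.2))).image (fun c => c.1 + (r - 1 - c.2))).card
        ≤ 2 * r - 1 := by
      calc _ ≤ (Finset.range (2 * r - 1)).card := by
            apply Finset.card_le_card
            intro c hc
            simp only [Finset.mem_image] at hc
            obtain ⟨_, ⟨p, hp, rfl⟩, rfl⟩ := hc
            obtain ⟨h2, h3⟩ := hb p hp
            simp only [Finset.mem_range]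
            omega
        _ = 2 * r - 1 := Finset.card_range _
    refine le_trans (le_of_eq ?_) h1
    symm
    apply Finset.card_image_of_injOn
    intro c hc c' hc' h
    simp only [Finset.coe_image, Set.mem_image, Finset.mem_coe] at hc hc'
    obtain ⟨p, hp, rfl⟩ := hc
    obtain ⟨q, hq, rfl⟩ := hc'
    simp only at h
    obtain ⟨hp1, hp2⟩ := hb p hp
    obtain ⟨hq1, hq2⟩ := hb q hq
    rcases lt_trichotomy (X p.1) (X q.1) with h2 | h2 | h2
    · have h3 := hκ _ _ h2.le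
      have h4 := hκ _ _ (hH p hp q hq h2)
      ext <;> simp only <;> omega
    · rw [hfun p hp q hq h2]
    · have h3 := hκ _ _ h2.le
      have h4 := hκ _ _ (hH q hq p hp h2)
      ext <;> simp only <;> omega

/-- Ordered pairs of distinct elements with the same image. -/
def samePairs {β : Type*} [DecidableEq β] (H : Finset (α × α)) (f : α × α → β) :
    Finset ((α × α) × (α × α)) :=
  H.offDiag.filter (fun pq => f pq.1 = f pq.2)

theorem card_le_samePairs {β : Type*} [DecidableEq β] (H : Finset (α × α)) (f : α × α → β) :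
    H.card ≤ (samePairs H f).card + (H.image f).card := by
  classical
  -- choose a representative of each fibre
  have h1 : (samePairs H f).card = ∑ c ∈ H.image f, ((H.filter (fun p => f p = c)).offDiag).card := by
    rw [Finset.card_eq_sum_card_fiberwise (f := fun pq => f pq.1) (t := H.image f)]
    · apply Finset.sum_congr rfl
      intro c _
      congr 1
      ext ⟨p, q⟩
      simp only [samePairs, Finset.mem_filter, Finset.mem_offDiag]
      constructor
      · rintro ⟨⟨⟨h1, h2, h3⟩, h4⟩, h5⟩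
        exact ⟨⟨h1, h5⟩, ⟨h2, h4.symm.trans h5⟩, h3⟩
      · rintro ⟨⟨h1, h5⟩, ⟨h2, h6⟩, h3⟩
        exact ⟨⟨⟨h1, h2, h3⟩, h5.trans h6.symm⟩, h5⟩
    · intro pq hpq
      simp only [samePairs, Finset.coe_filter, Finset.mem_offDiag, Set.mem_ofPred_eq] at hpq
      exact Finset.mem_coe.2 (Finset.mem_image_of_mem _ hpq.1.1)
  have h2 : H.card = ∑ c ∈ H.image f, (H.filter (fun p => f p = c)).card :=
    Finset.card_eq_sum_card_image f H
  have h3 : (H.image f).card = ∑ c ∈ H.image f, 1 := by simp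
  rw [h1, h2, h3, ← Finset.sum_add_distrib]
  apply Finset.sum_le_sum
  intro c _
  rw [Finset.offDiag_card]
  generalize (H.filter (fun p => f p = c)).card = m
  rcases m with _ | m
  · simp
  · rw [← Nat.mul_sub_one]
    simp only [Nat.add_sub_cancel]
    nlinarith [Nat.zero_le m]

/-- A family of piecewise monotone partial functions on `Y`, any two of which share at most one
pair. -/
structure RichFamily (Y : Finset α) (X : α → ℝ) (𝓕 : Finset (Finset (α × α))) : Prop where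
  injX : Set.InjOn X Y
  sub : ∀ G ∈ 𝓕, G ⊆ Y ×ˢ Y
  fn : ∀ G ∈ 𝓕, ∀ p ∈ G, ∀ q ∈ G, p.1 = q.1 → p = q
  chain : ∀ G ∈ 𝓕, ∃ H ⊆ G, G.card ≤ 2 * H.card ∧ IsChainFor X H
  two : ∀ G ∈ 𝓕, 2 ≤ G.card
  share : ∀ G ∈ 𝓕, ∀ G' ∈ 𝓕, ∀ p ∈ G, ∀ q ∈ G, p ∈ G' → q ∈ G' → p ≠ q → G = G'

theorem RichFamily.card_le {Y : Finset α} {X : α → ℝ} {𝓕 : Finset (Finset (α × α))}
    (h : RichFamily Y X 𝓕) {G : Finset (α × α)} (hG : G ∈ 𝓕) : G.card ≤ Y.card := by
  rw [← Finset.card_image_of_injOn (s := G) (f := Prod.fst)]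
  · apply Finset.card_le_card
    intro y hy
    obtain ⟨p, hp, rfl⟩ := Finset.mem_image.1 hy
    exact (Finset.mem_product.1 (h.sub G hG hp)).1
  · intro p hp q hq hpq
    exact h.fn G hG p hp q hq hpq

/-- If each member of a subfamily has at least `a` pairs inside a finite set `Q` of pairs, then
`a` times the number of members is at most `|Q|`. -/
theorem RichFamily.card_mul_le {Y : Finset α} {X : α → ℝ} {𝓕 : Finset (Finset (α × α))}
    (h : RichFamily Y X 𝓕) {𝓖 : Finset (Finset (α × α))} (h𝓖 : 𝓖 ⊆ 𝓕)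
    (Q : Finset ((α × α) × (α × α))) (S : Finset (α × α) → Finset ((α × α) × (α × α))) (a c : ℕ)
    (hS : ∀ G ∈ 𝓖, S G ⊆ G.offDiag) (hSQ : ∀ G ∈ 𝓖, S G ⊆ Q) (ha : ∀ G ∈ 𝓖, a ≤ c * (S G).card) :
    𝓖.card * a ≤ c * Q.card := by
  have h1 : (𝓖.biUnion S).card = ∑ G ∈ 𝓖, (S G).card := by
    apply Finset.card_biUnion
    intro G hG G' hG' hne
    rw [Function.onFun, Finset.disjoint_left]
    intro pq hpq hpq'
    have h2 := Finset.mem_offDiag.1 (hS G hG hpq)
    have h3 := Finset.mem_offDiag.1 (hS G' hG' hpq')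
    exact hne (h.share G (h𝓖 hG) G' (h𝓖 hG') _ h2.1 _ h2.2.1 h3.1 h3.2.1 h2.2.2)
  have h2 : (𝓖.biUnion S).card ≤ Q.card := by
    apply Finset.card_le_card
    rw [Finset.biUnion_subset]
    exact hSQ
  calc 𝓖.card * a = ∑ G ∈ 𝓖, a := by simp
    _ ≤ ∑ G ∈ 𝓖, c * (S G).card := Finset.sum_le_sum ha
    _ = c * ∑ G ∈ 𝓖, (S G).card := by rw [Finset.mul_sum]
    _ ≤ c * Q.card := by rw [← h1]; exact Nat.mul_le_mul_left _ h2

theorem card_fibre_rank {Y : Finset α} {X : α → ℝ} (hX : Set.InjOn X Y) {s : ℕ} (hs : 1 ≤ s)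
    (c : ℕ) : (Y.filter (fun y => rankIn Y X y / s = c)).card ≤ s := by
  calc (Y.filter (fun y => rankIn Y X y / s = c)).card
      = ((Y.filter (fun y => rankIn Y X y / s = c)).image (rankIn Y X)).card := by
        symm
        apply Finset.card_image_of_injOn
        exact (rankIn_injOn Y X hX).mono (fun y hy => (Finset.mem_filter.1 hy).1)
    _ ≤ (Finset.Ico (c * s) (c * s + s)).card := by
        apply Finset.card_le_card
        intro v hv
        obtain ⟨y, hy, rfl⟩ := Finset.mem_image.1 hv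
        rw [Finset.mem_filter] at hy
        rw [Finset.mem_Ico]
        have h1 := Nat.div_add_mod (rankIn Y X y) s
        have h2 := Nat.mod_lt (rankIn Y X y) hs
        rw [hy.2, mul_comm] at h1
        omega
    _ = s := by simp

theorem card_cellPairs {Y : Finset α} {X : α → ℝ} (hX : Set.InjOn X Y) {s : ℕ} (hs : 1 ≤ s) :
    (((Y ×ˢ Y) ×ˢ (Y ×ˢ Y)).filter (fun pq => rankIn Y X pq.1.1 / s = rankIn Y X pq.2.1 / s ∧
      rankIn Y X pq.1.2 / s = rankIn Y X pq.2.2 / s)).card ≤ Y.card ^ 2 * s ^ 2 := by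
  rw [Finset.card_filter, Finset.sum_product]
  calc _ ≤ ∑ p ∈ Y ×ˢ Y, s ^ 2 := by
        apply Finset.sum_le_sum
        intro p _
        rw [← Finset.card_filter]
        calc _ ≤ ((Y.filter (fun y => rankIn Y X y / s = rankIn Y X p.1 / s)) ×ˢ
              (Y.filter (fun y => rankIn Y X y / s = rankIn Y X p.2 / s))).card := by
              apply Finset.card_le_card
              intro q hq
              simp only [Finset.mem_filter, Finset.mem_product] at hq ⊢
              exact ⟨⟨hq.1.1, hq.2.1.symm⟩, ⟨hq.1.2, hq.2.2.symm⟩⟩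
          _ ≤ s ^ 2 := by
              rw [Finset.card_product, sq]
              exact Nat.mul_le_mul (card_fibre_rank hX hs _) (card_fibre_rank hX hs _)
    _ = Y.card ^ 2 * s ^ 2 := by
        simp [Finset.card_product, sq]

/-- The number of members with at least `m` elements is at most `1156 |Y|^4 / m^3`. -/
theorem RichFamily.card_rich {Y : Finset α} {X : α → ℝ} {𝓕 : Finset (Finset (α × α))}
    (h : RichFamily Y X 𝓕) (m : ℕ) :
    m ^ 3 * (𝓕.filter (fun G => m ≤ G.card)).card ≤ 1156 * Y.card ^ 4 := by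
  classical
  set D := Y.card with hD
  set 𝓖 := 𝓕.filter (fun G => m ≤ G.card) with h𝓖
  have h𝓖𝓕 : 𝓖 ⊆ 𝓕 := Finset.filter_subset _ _
  rcases Nat.eq_zero_or_pos 𝓖.card with h0 | h0
  · rw [h0]; simp
  obtain ⟨G0, hG0⟩ := Finset.card_pos.1 h0
  have hmD : m ≤ D := (Finset.mem_filter.1 hG0).2.trans (h.card_le (h𝓖𝓕 hG0))
  rcases le_or_gt m 8 with hm | hm
  · have h1 : 𝓖.card * 1 ≤ 1 * ((Y ×ˢ Y) ×ˢ (Y ×ˢ Y)).card := by
      apply h.card_mul_le h𝓖𝓕 _ (fun G => G.offDiag) 1 1 (fun G _ => subset_rfl)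
      · intro G hG pq hpq
        have h2 := Finset.mem_offDiag.1 hpq
        exact Finset.mem_product.2 ⟨h.sub G (h𝓖𝓕 hG) h2.1, h.sub G (h𝓖𝓕 hG) h2.2.1⟩
      · intro G hG
        have h2 := h.two G (h𝓖𝓕 hG)
        rw [one_mul, Finset.offDiag_card]
        have : G.card * 1 < G.card * G.card := Nat.mul_lt_mul_of_pos_left (by omega) (by omega)
        omega
    have h2 : m ^ 3 ≤ 8 ^ 3 := Nat.pow_le_pow_left hm 3
    have h3 : ((Y ×ˢ Y) ×ˢ (Y ×ˢ Y)).card = D ^ 4 := by
      rw [Finset.card_product, Finset.card_product]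
      ring
    rw [h3] at h1
    calc m ^ 3 * 𝓖.card ≤ 8 ^ 3 * D ^ 4 := Nat.mul_le_mul h2 (by omega)
      _ ≤ 1156 * D ^ 4 := Nat.mul_le_mul_right _ (by norm_num)
  · -- the main case
    set s := 16 * D / m + 1 with hs
    have hs1 : 1 ≤ s := Nat.le_add_left 1 _
    have hsm : 16 * D < s * m := by
      have := Nat.lt_div_mul_add (a := 16 * D) (b := m) (by omega)
      rw [hs]; nlinarith
    have hsm' : s * m ≤ 17 * D := by
      have := Nat.div_mul_le_self (16 * D) m
      rw [hs]; nlinarith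
    set r := D / s + 1 with hr
    have hr16 : 16 * (D / s) < m := by
      have h1 := Nat.div_mul_le_self D s
      by_contra hcon
      push Not at hcon
      have : s * m ≤ s * (16 * (D / s)) := Nat.mul_le_mul_left _ hcon
      nlinarith
    set κ : α → ℕ := fun y => rankIn Y X y / s with hκ
    choose! Hs hHs1 hHs2 hHs3 using h.chain
    have key : 𝓖.card * m ≤ 4 * (((Y ×ˢ Y) ×ˢ (Y ×ˢ Y)).filter (fun pq =>
        rankIn Y X pq.1.1 / s = rankIn Y X pq.2.1 / s ∧
        rankIn Y X pq.1.2 / s = rankIn Y X pq.2.2 / s)).card := by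
      apply h.card_mul_le h𝓖𝓕 _ (fun G => samePairs (Hs G) (fun p => (κ p.1, κ p.2))) m 4
      · intro G hG pq hpq
        have h2 := Finset.mem_offDiag.1 (Finset.mem_filter.1 hpq).1
        exact Finset.mem_offDiag.2 ⟨hHs1 G (h𝓖𝓕 hG) h2.1, hHs1 G (h𝓖𝓕 hG) h2.2.1, h2.2.2⟩
      · intro G hG pq hpq
        have h2 := Finset.mem_offDiag.1 (Finset.mem_filter.1 hpq).1
        have h3 := (Finset.mem_filter.1 hpq).2
        rw [Finset.mem_filter, Finset.mem_product]
        refine ⟨⟨h.sub G (h𝓖𝓕 hG) (hHs1 G (h𝓖𝓕 hG) h2.1),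
          h.sub G (h𝓖𝓕 hG) (hHs1 G (h𝓖𝓕 hG) h2.2.1)⟩, ?_⟩
        exact Prod.mk.inj h3
      · intro G hG
        have hG𝓕 := h𝓖𝓕 hG
        have h2 : m ≤ G.card := (Finset.mem_filter.1 hG).2
        have h3 := hHs2 G hG𝓕
        have h4 := card_le_samePairs (Hs G) (fun p => (κ p.1, κ p.2))
        have h5 : ((Hs G).image (fun p => (κ p.1, κ p.2))).card ≤ 2 * r - 1 := by
          apply card_cells_le (X := X) (by omega)
          · intro y z hyz
            exact Nat.div_le_div_right (rankIn_mono Y X hyz)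
          · intro p hp
            have h6 := Finset.mem_product.1 (h.sub G hG𝓕 (hHs1 G hG𝓕 hp))
            have h7 := rankIn_lt Y X h6.1
            have h8 := rankIn_lt Y X h6.2
            constructor
            · exact Nat.lt_succ_of_le (Nat.div_le_div_right h7.le)
            · exact Nat.lt_succ_of_le (Nat.div_le_div_right h8.le)
          · intro p hp q hq hpq
            have h6 := Finset.mem_product.1 (h.sub G hG𝓕 (hHs1 G hG𝓕 hp))
            have h7 := Finset.mem_product.1 (h.sub G hG𝓕 (hHs1 G hG𝓕 hq))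
            exact h.fn G hG𝓕 p (hHs1 G hG𝓕 hp) q (hHs1 G hG𝓕 hq) (h.injX h6.1 h7.1 hpq)
          · exact hHs3 G hG𝓕
        show m ≤ 4 * (samePairs (Hs G) (fun p => (κ p.1, κ p.2))).card
        omega
    have h2 := card_cellPairs (Y := Y) h.injX hs1
    have h3 : 𝓖.card * m ≤ 4 * (D ^ 2 * s ^ 2) := key.trans (Nat.mul_le_mul_left _ h2)
    calc m ^ 3 * 𝓖.card = (𝓖.card * m) * m ^ 2 := by ring
      _ ≤ 4 * (D ^ 2 * s ^ 2) * m ^ 2 := Nat.mul_le_mul_right _ h3
      _ = 4 * D ^ 2 * (s * m) ^ 2 := by ring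
      _ ≤ 4 * D ^ 2 * (17 * D) ^ 2 := Nat.mul_le_mul_left _ (Nat.pow_le_pow_left hsm' 2)
      _ = 1156 * D ^ 4 := by ring

theorem pow_four_le_sum (g : ℕ) : g ^ 4 ≤ 4 * ∑ m ∈ Finset.Icc 1 g, m ^ 3 := by
  induction g with
  | zero => simp
  | succ g ih =>
    rw [Finset.sum_Icc_succ_top (by omega)]
    have : (g + 1) ^ 4 ≤ g ^ 4 + 4 * (g + 1) ^ 3 := by
      nlinarith [sq_nonneg g, Nat.zero_le g, Nat.zero_le (g ^ 2), Nat.zero_le (g ^ 3)]
    rw [mul_add]
    omega

/-- The energy bound. -/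
theorem RichFamily.energy {Y : Finset α} {X : α → ℝ} {𝓕 : Finset (Finset (α × α))}
    (h : RichFamily Y X 𝓕) {j : ℕ} (hj : 4 ≤ j) :
    ∑ G ∈ 𝓕, G.card ^ j ≤ 4624 * Y.card ^ (j + 1) := by
  classical
  obtain ⟨i, rfl⟩ := Nat.exists_eq_add_of_le hj
  set D := Y.card with hD
  have h4 : ∑ G ∈ 𝓕, G.card ^ 4 ≤ 4624 * D ^ 5 := by
    calc ∑ G ∈ 𝓕, G.card ^ 4 ≤ ∑ G ∈ 𝓕, 4 * ∑ m ∈ Finset.Icc 1 D, if m ≤ G.card then m ^ 3 else 0 := by
          apply Finset.sum_le_sum
          intro G hG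
          refine (pow_four_le_sum G.card).trans (Nat.mul_le_mul_left _ ?_)
          rw [← Finset.sum_filter]
          apply Finset.sum_le_sum_of_subset
          intro m hm
          rw [Finset.mem_Icc] at hm
          rw [Finset.mem_filter, Finset.mem_Icc]
          exact ⟨⟨hm.1, hm.2.trans (h.card_le hG)⟩, hm.2⟩
      _ = 4 * ∑ m ∈ Finset.Icc 1 D, m ^ 3 * (𝓕.filter (fun G => m ≤ G.card)).card := by
          rw [← Finset.mul_sum, Finset.sum_comm]
          congr 1
          apply Finset.sum_congr rfl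
          intro m _
          rw [← Finset.sum_filter, Finset.sum_const, smul_eq_mul, mul_comm]
      _ ≤ 4 * ∑ m ∈ Finset.Icc 1 D, 1156 * D ^ 4 := by
          apply Nat.mul_le_mul_left
          apply Finset.sum_le_sum
          intro m _
          exact h.card_rich m
      _ = 4624 * D ^ 5 := by
          simp only [Finset.sum_const, Nat.card_Icc, smul_eq_mul]
          simp only [Nat.add_sub_cancel]
          ring
  calc ∑ G ∈ 𝓕, G.card ^ (4 + i) ≤ ∑ G ∈ 𝓕, G.card ^ 4 * D ^ i := by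
        apply Finset.sum_le_sum
        intro G hG
        rw [pow_add]
        exact Nat.mul_le_mul_left _ (Nat.pow_le_pow_left (h.card_le hG) i)
    _ = (∑ G ∈ 𝓕, G.card ^ 4) * D ^ i := by rw [Finset.sum_mul]
    _ ≤ 4624 * D ^ 5 * D ^ i := Nat.mul_le_mul_right _ h4
    _ = 4624 * D ^ (4 + i + 1) := by ring

theorem pow_three_le_sum (g : ℕ) : g ^ 3 ≤ 3 * ∑ m ∈ Finset.Icc 1 g, m ^ 2 := by
  induction g with
  | zero => simp
  | succ g ih =>
    rw [Finset.sum_Icc_succ_top (by omega)]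
    have : (g + 1) ^ 3 ≤ g ^ 3 + 3 * (g + 1) ^ 2 := by
      nlinarith [sq_nonneg g, Nat.zero_le g, Nat.zero_le (g ^ 2)]
    rw [mul_add]
    omega

/-- The energy bound with exponent three. -/
theorem RichFamily.energy_three {Y : Finset α} {X : α → ℝ} {𝓕 : Finset (Finset (α × α))}
    (h : RichFamily Y X 𝓕) :
    ((∑ G ∈ 𝓕, G.card ^ 3 : ℕ) : ℝ) ≤ 3468 * (Y.card : ℝ) ^ 4 * (1 + Real.log Y.card) := by
  classical
  set D := Y.card with hD
  have h3 : ∑ G ∈ 𝓕, G.card ^ 3 ≤
      3 * ∑ m ∈ Finset.Icc 1 D, m ^ 2 * (𝓕.filter (fun G => m ≤ G.card)).card := by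
    calc ∑ G ∈ 𝓕, G.card ^ 3 ≤ ∑ G ∈ 𝓕, 3 * ∑ m ∈ Finset.Icc 1 D, if m ≤ G.card then m ^ 2 else 0 := by
          apply Finset.sum_le_sum
          intro G hG
          refine (pow_three_le_sum G.card).trans (Nat.mul_le_mul_left _ ?_)
          rw [← Finset.sum_filter]
          apply Finset.sum_le_sum_of_subset
          intro m hm
          rw [Finset.mem_Icc] at hm
          rw [Finset.mem_filter, Finset.mem_Icc]
          exact ⟨⟨hm.1, hm.2.trans (h.card_le hG)⟩, hm.2⟩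
      _ = 3 * ∑ m ∈ Finset.Icc 1 D, m ^ 2 * (𝓕.filter (fun G => m ≤ G.card)).card := by
          rw [← Finset.mul_sum, Finset.sum_comm]
          congr 1
          apply Finset.sum_congr rfl
          intro m _
          rw [← Finset.sum_filter, Finset.sum_const, smul_eq_mul, mul_comm]
  have h4 : ∀ m ∈ Finset.Icc 1 D,
      ((m ^ 2 * (𝓕.filter (fun G => m ≤ G.card)).card : ℕ) : ℝ) ≤ 1156 * (D : ℝ) ^ 4 * (m : ℝ)⁻¹ := by
    intro m hm
    have hm1 : (0 : ℝ) < m := by exact_mod_cast (Finset.mem_Icc.1 hm).1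
    have h5 : ((m ^ 3 * (𝓕.filter (fun G => m ≤ G.card)).card : ℕ) : ℝ) ≤
        ((1156 * D ^ 4 : ℕ) : ℝ) := by exact_mod_cast h.card_rich m
    rw [← div_eq_mul_inv, le_div_iff₀ hm1]
    push_cast at h5 ⊢
    calc _ = (m : ℝ) ^ 3 * ((𝓕.filter (fun G => m ≤ G.card)).card : ℝ) := by ring
      _ ≤ _ := h5
  have h5 : (∑ m ∈ Finset.Icc 1 D, (m : ℝ)⁻¹) ≤ 1 + Real.log D := by
    have h6 := harmonic_le_one_add_log D
    rw [harmonic_eq_sum_Icc] at h6
    push_cast at h6
    exact h6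
  calc ((∑ G ∈ 𝓕, G.card ^ 3 : ℕ) : ℝ)
      ≤ ((3 * ∑ m ∈ Finset.Icc 1 D, m ^ 2 * (𝓕.filter (fun G => m ≤ G.card)).card : ℕ) : ℝ) := by
        exact_mod_cast h3
    _ = 3 * ∑ m ∈ Finset.Icc 1 D, ((m ^ 2 * (𝓕.filter (fun G => m ≤ G.card)).card : ℕ) : ℝ) := by
        push_cast; rfl
    _ ≤ 3 * ∑ m ∈ Finset.Icc 1 D, 1156 * (D : ℝ) ^ 4 * (m : ℝ)⁻¹ := by
        apply mul_le_mul_of_nonneg_left _ (by norm_num)
        exact Finset.sum_le_sum h4
    _ = 3468 * (D : ℝ) ^ 4 * ∑ m ∈ Finset.Icc 1 D, (m : ℝ)⁻¹ := by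
        rw [← Finset.mul_sum]; ring
    _ ≤ 3468 * (D : ℝ) ^ 4 * (1 + Real.log D) := by
        apply mul_le_mul_of_nonneg_left h5
        positivity

/-- The energy bound with a logarithm for all exponents `≥ 3`. -/
theorem RichFamily.energy_log {Y : Finset α} {X : α → ℝ} {𝓕 : Finset (Finset (α × α))}
    (h : RichFamily Y X 𝓕) {j : ℕ} (hj : 3 ≤ j) :
    ((∑ G ∈ 𝓕, G.card ^ j : ℕ) : ℝ) ≤ 3468 * (Y.card : ℝ) ^ (j + 1) * (1 + Real.log Y.card) := by
  classical
  obtain ⟨i, rfl⟩ := Nat.exists_eq_add_of_le hj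
  have h1 : ∑ G ∈ 𝓕, G.card ^ (3 + i) ≤ (∑ G ∈ 𝓕, G.card ^ 3) * Y.card ^ i := by
    rw [Finset.sum_mul]
    apply Finset.sum_le_sum
    intro G hG
    rw [pow_add]
    exact Nat.mul_le_mul_left _ (Nat.pow_le_pow_left (h.card_le hG) i)
  calc ((∑ G ∈ 𝓕, G.card ^ (3 + i) : ℕ) : ℝ)
      ≤ (((∑ G ∈ 𝓕, G.card ^ 3) * Y.card ^ i : ℕ) : ℝ) := by exact_mod_cast h1
    _ = ((∑ G ∈ 𝓕, G.card ^ 3 : ℕ) : ℝ) * (Y.card : ℝ) ^ i := by push_cast; rfl
    _ ≤ (3468 * (Y.card : ℝ) ^ 4 * (1 + Real.log Y.card)) * (Y.card : ℝ) ^ i := by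
        apply mul_le_mul_of_nonneg_right h.energy_three
        positivity
    _ = 3468 * (Y.card : ℝ) ^ (3 + i + 1) * (1 + Real.log Y.card) := by ring

end Pool.Agent.Lib.MP_b430f2_co
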