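import Mathlib
import Pool.Agent.Lib.MP_b430f2_co.Chains

/-! Configurations: base vectors `x` and a set `Y` that is in general position in a plane modulo
the span of the base vectors. The linear maps fixing the base vectors act on `Y` as piecewise
monotone partial maps. -/

namespace Pool.Agent.Lib.MP_b430f2_co

open Finset

variable {W : Type*} [AddCommGroup W] [Module ℝ W]

/-- `x` is a list of distinct elements of `X` and `Y ⊆ X` is such that any two elements of `Y`
are independent and generate all of `Y` modulo the span of `x`. -/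
structure LConfig (X : Finset W) {e : ℕ} (x : Fin e → W) (Y : Finset W) : Prop where
  inj : Function.Injective x
  mem : ∀ i, x i ∈ X
  sub : Y ⊆ X
  ind : ∀ y ∈ Y, ∀ z ∈ Y, y ≠ z → ∀ s t : ℝ,
    s • y + t • z ∈ Submodule.span ℝ (Set.range x) → s = 0 ∧ t = 0
  gen : ∀ y ∈ Y, ∀ z ∈ Y, y ≠ z → ∀ w ∈ Y, ∃ s t : ℝ,
    w - (s • y + t • z) ∈ Submodule.span ℝ (Set.range x)

theorem LConfig.mono_right {X : Finset W} {e : ℕ} {x : Fin e → W} {Y : Finset W}
    (h : LConfig X x Y) {Z : Finset W} (hZ : Z ⊆ Y) : LConfig X x Z :=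
  ⟨h.inj, h.mem, hZ.trans h.sub, fun y hy z hz => h.ind y (hZ hy) z (hZ hz),
    fun y hy z hz hyz w hw => h.gen y (hZ hy) z (hZ hz) hyz w (hZ hw)⟩

variable [DecidableEq W]

open Classical in
/-- The graph of `L` on `Y`. -/
noncomputable def graphOn (Y : Finset W) (L : W →ₗ[ℝ] W) : Finset (W × W) :=
  (Y ×ˢ Y).filter (fun p => L p.1 = p.2)

theorem mem_graphOn {Y : Finset W} {L : W →ₗ[ℝ] W} {p : W × W} :
    p ∈ graphOn Y L ↔ (p.1 ∈ Y ∧ p.2 ∈ Y) ∧ L p.1 = p.2 := by
  classical
  rw [graphOn, Finset.mem_filter, Finset.mem_product]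

open Classical in
/-- The graphs with at least two elements of the linear maps that fix the base vectors. -/
noncomputable def graphFamily {e : ℕ} (x : Fin e → W) (Y : Finset W) : Finset (Finset (W × W)) :=
  ((Y ×ˢ Y).powerset).filter
    (fun G => 2 ≤ G.card ∧ ∃ L : W →ₗ[ℝ] W, (∀ i, L (x i) = x i) ∧ G = graphOn Y L)

theorem mem_graphFamily {e : ℕ} {x : Fin e → W} {Y : Finset W} {G : Finset (W × W)} :
    G ∈ graphFamily x Y ↔
      2 ≤ G.card ∧ ∃ L : W →ₗ[ℝ] W, (∀ i, L (x i) = x i) ∧ G = graphOn Y L := by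
  classical
  rw [graphFamily, Finset.mem_filter, Finset.mem_powerset]
  constructor
  · exact fun h => h.2
  · intro h
    refine ⟨?_, h⟩
    obtain ⟨_, L, _, rfl⟩ := h
    intro p hp
    exact Finset.mem_product.2 (mem_graphOn.1 hp).1

theorem exists_functional {N : Submodule ℝ W} {y z : W}
    (h : ∀ s t : ℝ, s • y + t • z ∈ N → s = 0 ∧ t = 0) :
    ∃ f : W →ₗ[ℝ] ℝ, (∀ n ∈ N, f n = 0) ∧ f y = 1 ∧ f z = 0 := by
  have hy : y ∉ N ⊔ Submodule.span ℝ {z} := by
    intro hy
    obtain ⟨n, hn, v, hv, hnv⟩ := Submodule.mem_sup.1 hy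
    obtain ⟨t, rfl⟩ := Submodule.mem_span_singleton.1 hv
    have := h 1 (-t) (by
      have : (1 : ℝ) • y + (-t) • z = n := by rw [← hnv]; module
      rw [this]; exact hn)
    exact one_ne_zero this.1
  obtain ⟨f, hf, hNf⟩ := Submodule.exists_le_ker_of_notMem hy
  refine ⟨(f y)⁻¹ • f, ?_, ?_, ?_⟩
  · intro n hn
    have : f n = 0 := hNf (Submodule.mem_sup_left hn)
    simp [this]
  · simp [hf]
  · have : f z = 0 := hNf (Submodule.mem_sup_right (Submodule.mem_span_singleton_self z))
    simp [this]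

/-- After removing one element, the graphs of the linear maps fixing the base vectors form a rich
family. -/
theorem LConfig.richFamily {X : Finset W} {e : ℕ} {x : Fin e → W} {Y : Finset W}
    (h : LConfig X x Y) {y₁ y₂ : W} (hy₁ : y₁ ∈ Y) (hy₂ : y₂ ∈ Y) (hne : y₁ ≠ y₂) :
    ∃ ξ : W → ℝ, RichFamily (Y.erase y₁) ξ (graphFamily x (Y.erase y₁)) := by
  classical
  set N := Submodule.span ℝ (Set.range x) with hN
  obtain ⟨a, haN, ha1, ha2⟩ := exists_functional (h.ind y₁ hy₁ y₂ hy₂ hne)
  obtain ⟨b, hbN, hb2, hb1⟩ := exists_functional (h.ind y₂ hy₂ y₁ hy₁ hne.symm)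
  -- every element of `Y` is `a w • y₁ + b w • y₂` modulo `N`
  have hdec : ∀ w ∈ Y, w - (a w • y₁ + b w • y₂) ∈ N := by
    intro w hw
    obtain ⟨s, t, hst⟩ := h.gen y₁ hy₁ y₂ hy₂ hne w hw
    have h1 := haN _ hst
    have h2 := hbN _ hst
    simp only [map_sub, map_add, map_smul, smul_eq_mul, ha1, ha2, hb1, hb2] at h1 h2
    have h3 : a w = s := by linarith
    have h4 : b w = t := by linarith
    rw [h3, h4]
    exact hst
  have hb0 : ∀ w ∈ Y.erase y₁, b w ≠ 0 := by
    intro w hw hbw
    have hw' := Finset.mem_erase.1 hw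
    have h1 := hdec w hw'.2
    rw [hbw, zero_smul, add_zero] at h1
    have h2 := h.ind w hw'.2 y₁ hy₁ hw'.1 1 (- a w) (by
      have : (1 : ℝ) • w + (- a w) • y₁ = w - a w • y₁ := by module
      rw [this]; exact h1)
    exact one_ne_zero h2.1
  refine ⟨fun w => a w / b w, ?_, ?_, ?_, ?_, ?_, ?_⟩
  · -- injectivity
    intro w hw w' hw' hww
    simp only at hww
    by_contra hcon
    have hw0 := hb0 w hw
    have hw0' := hb0 w' hw'
    rw [div_eq_div_iff hw0 hw0'] at hww
    have h1 := hdec w (Finset.mem_erase.1 hw).2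
    have h2 := hdec w' (Finset.mem_erase.1 hw').2
    have h3 := N.sub_mem (N.smul_mem (b w') h1) (N.smul_mem (b w) h2)
    have h4 : b w' • (w - (a w • y₁ + b w • y₂)) - b w • (w' - (a w' • y₁ + b w' • y₂))
        = b w' • w + (- b w) • w' + (a w' * b w - a w * b w') • y₁ := by module
    rw [h4, hww, sub_self, zero_smul, add_zero] at h3
    have h5 := h.ind w (Finset.mem_erase.1 hw).2 w' (Finset.mem_erase.1 hw').2 hcon _ _ h3
    exact hw0' h5.1
  · intro G hG
    obtain ⟨_, L, _, rfl⟩ := mem_graphFamily.1 hG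
    intro p hp
    exact Finset.mem_product.2 (mem_graphOn.1 hp).1
  · intro G hG p hp q hq hpq
    obtain ⟨_, L, _, rfl⟩ := mem_graphFamily.1 hG
    have h1 := (mem_graphOn.1 hp).2
    have h2 := (mem_graphOn.1 hq).2
    ext
    · exact hpq
    · rw [← h1, ← h2, hpq]
  · intro G hG
    obtain ⟨_, L, hL, rfl⟩ := mem_graphFamily.1 hG
    have hLN : ∀ n ∈ N, L n = n := by
      intro n hn
      induction hn using Submodule.span_induction with
      | mem v hv => obtain ⟨i, rfl⟩ := hv; exact hL i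
      | zero => exact map_zero L
      | add u v _ _ hu hv => rw [map_add, hu, hv]
      | smul r u _ hu => rw [map_smul, hu]
    -- the matrix of `L`
    have hmat : ∀ p ∈ graphOn (Y.erase y₁) L,
        a p.2 = a p.1 * a (L y₁) + b p.1 * a (L y₂) ∧ b p.2 = a p.1 * b (L y₁) + b p.1 * b (L y₂) := by
      intro p hp
      obtain ⟨⟨h1, h2⟩, h3⟩ := mem_graphOn.1 hp
      have h4 := hdec p.1 (Finset.mem_erase.1 h1).2
      set n := p.1 - (a p.1 • y₁ + b p.1 • y₂) with hn
      have h5 : p.2 = n + (a p.1 • L y₁ + b p.1 • L y₂) := by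
        have : p.1 = n + (a p.1 • y₁ + b p.1 • y₂) := by rw [hn]; abel
        rw [← h3]
        conv_lhs => rw [this]
        rw [map_add, hLN n h4, map_add, map_smul, map_smul]
      constructor
      · rw [h5, map_add, haN n h4]
        simp
      · rw [h5, map_add, hbN n h4]
        simp
    set A := a (L y₁) with hA
    set B := a (L y₂) with hB
    set C := b (L y₁) with hC
    set E := b (L y₂) with hE
    set G := graphOn (Y.erase y₁) L with hGdef
    have hbp : ∀ p ∈ G, b p.1 ≠ 0 ∧ b p.2 ≠ 0 := fun p hp =>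
      ⟨hb0 _ (mem_graphOn.1 hp).1.1, hb0 _ (mem_graphOn.1 hp).1.2⟩
    -- the key identity
    have hkey : ∀ p ∈ G, ∀ q ∈ G, (a p.2 / b p.2 - a q.2 / b q.2) =
        (A * E - B * C) * (a p.1 / b p.1 - a q.1 / b q.1) /
          ((b p.2 / b p.1) * (b q.2 / b q.1)) := by
      intro p hp q hq
      obtain ⟨hp1, hp2⟩ := hbp p hp
      obtain ⟨hq1, hq2⟩ := hbp q hq
      obtain ⟨hpa, hpb⟩ := hmat p hp
      obtain ⟨hqa, hqb⟩ := hmat q hq
      rw [div_sub_div _ _ hp2 hq2, div_sub_div _ _ hp1 hq1]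
      field_simp
      rw [hpa, hpb, hqa, hqb]
      ring
    have hchain : ∀ H : Finset (W × W), H ⊆ G →
        (∀ p ∈ H, ∀ q ∈ H, 0 < (b p.2 / b p.1) * (b q.2 / b q.1)) →
        IsChainFor (fun w => a w / b w) H := by
      intro H hH hpos
      rcases le_total 0 (A * E - B * C) with hD | hD
      · left
        intro p hp q hq hpq
        have h1 := hkey q (hH hq) p (hH hp)
        have h2 : 0 ≤ a q.2 / b q.2 - a p.2 / b p.2 := by
          rw [h1]
          apply div_nonneg _ (hpos q hq p hp).le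
          exact mul_nonneg hD (by simp only at hpq; linarith)
        simp only; linarith
      · right
        intro p hp q hq hpq
        have h1 := hkey q (hH hq) p (hH hp)
        have h2 : a q.2 / b q.2 - a p.2 / b p.2 ≤ 0 := by
          rw [h1]
          apply div_nonpos_of_nonpos_of_nonneg _ (hpos q hq p hp).le
          exact mul_nonpos_of_nonpos_of_nonneg hD (by simp only at hpq; linarith)
        simp only; linarith
    have hcard : (G.filter (fun p => 0 < b p.2 / b p.1)).card +
        (G.filter (fun p => ¬ 0 < b p.2 / b p.1)).card = G.card :=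
      Finset.card_filter_add_card_filter_not _
    rcases le_total (G.filter (fun p => ¬ 0 < b p.2 / b p.1)).card
      (G.filter (fun p => 0 < b p.2 / b p.1)).card with hc | hc
    · refine ⟨G.filter (fun p => 0 < b p.2 / b p.1), Finset.filter_subset _ _, by omega, ?_⟩
      apply hchain _ (Finset.filter_subset _ _)
      intro p hp q hq
      exact mul_pos (Finset.mem_filter.1 hp).2 (Finset.mem_filter.1 hq).2
    · refine ⟨G.filter (fun p => ¬ 0 < b p.2 / b p.1), Finset.filter_subset _ _, by omega, ?_⟩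
      apply hchain _ (Finset.filter_subset _ _)
      intro p hp q hq
      obtain ⟨hp1, hp2⟩ := Finset.mem_filter.1 hp
      obtain ⟨hq1, hq2⟩ := Finset.mem_filter.1 hq
      have hp3 : b p.2 / b p.1 < 0 :=
        lt_of_le_of_ne (not_lt.1 hp2) (div_ne_zero (hbp p hp1).2 (hbp p hp1).1)
      have hq3 : b q.2 / b q.1 < 0 :=
        lt_of_le_of_ne (not_lt.1 hq2) (div_ne_zero (hbp q hq1).2 (hbp q hq1).1)
      exact mul_pos_of_neg_of_neg hp3 hq3
  · intro G hG
    exact (mem_graphFamily.1 hG).1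
  · -- two maps that share two pairs agree on `Y`
    intro G hG G' hG' p hp q hq hp' hq' hpq
    obtain ⟨_, L, hL, rfl⟩ := mem_graphFamily.1 hG
    obtain ⟨_, L', hL', rfl⟩ := mem_graphFamily.1 hG'
    obtain ⟨⟨h1, h2⟩, h3⟩ := mem_graphOn.1 hp
    obtain ⟨⟨h4, h5⟩, h6⟩ := mem_graphOn.1 hq
    have h3' := (mem_graphOn.1 hp').2
    have h6' := (mem_graphOn.1 hq').2
    have hne' : p.1 ≠ q.1 := by
      intro hcon
      apply hpq
      ext
      · exact hcon
      · rw [← h3, ← h6, hcon]
    have hLN : ∀ n ∈ N, L n = L' n := by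
      intro n hn
      induction hn using Submodule.span_induction with
      | mem v hv => obtain ⟨i, rfl⟩ := hv; rw [hL i, hL' i]
      | zero => rw [map_zero, map_zero]
      | add u v _ _ hu hv => rw [map_add, map_add, hu, hv]
      | smul r u _ hu => rw [map_smul, map_smul, hu]
    have hagree : ∀ w ∈ Y.erase y₁, L w = L' w := by
      intro w hw
      obtain ⟨s, t, hst⟩ := h.gen p.1 (Finset.mem_erase.1 h1).2 q.1 (Finset.mem_erase.1 h4).2 hne' w
        (Finset.mem_erase.1 hw).2
      have h7 := hLN _ hst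
      simp only [map_sub, map_add, map_smul, h3, h6, h3', h6'] at h7
      exact sub_left_injective h7
    ext v
    rw [mem_graphOn, mem_graphOn]
    constructor
    · rintro ⟨h8, h9⟩
      exact ⟨h8, by rw [← hagree _ h8.1]; exact h9⟩
    · rintro ⟨h8, h9⟩
      exact ⟨h8, by rw [hagree _ h8.1]; exact h9⟩

end Pool.Agent.Lib.MP_b430f2_co
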