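import Mathlib
import Pool.Agent.Lib.MP_b430f2_co.Basic
import Pool.Agent.Lib.MP_b430f2_co.Config

/-! From configurations to a lower bound for the number of affine classes. -/

namespace Pool.Agent.Lib.MP_b430f2_co

open Finset

variable {d : ℕ}

/-- The lift of a point to the linear space one dimension up. -/
def lift (v : Fin d → ℝ) : (Fin d → ℝ) × ℝ := (v, 1)

theorem lift_injective : Function.Injective (lift (d := d)) := by
  intro v w h
  exact (Prod.mk.inj h).1

/-- The linear extension of an affine map. -/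
noncomputable def hatMap (T : (Fin d → ℝ) ≃ᵃ[ℝ] (Fin d → ℝ)) :
    ((Fin d → ℝ) × ℝ) →ₗ[ℝ] ((Fin d → ℝ) × ℝ) :=
  LinearMap.prod
    ((T.linear : (Fin d → ℝ) →ₗ[ℝ] (Fin d → ℝ)).comp (LinearMap.fst ℝ _ _) +
      (LinearMap.toSpanSingleton ℝ _ (T 0)).comp (LinearMap.snd ℝ _ _))
    (LinearMap.snd ℝ _ _)

theorem hatMap_lift (T : (Fin d → ℝ) ≃ᵃ[ℝ] (Fin d → ℝ)) (v : Fin d → ℝ) :
    hatMap T (lift v) = lift (T v) := by
  have h : T v = T.linear v + T 0 := by
    have := T.map_vadd 0 v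
    simpa using this
  simp [hatMap, lift, h]

/-- Cauchy–Schwarz for the fibres of a map. -/
theorem card_sq_le_card_mul {α β : Type*} [Fintype α] [DecidableEq α] [DecidableEq β] (f : α → β)
    (B : Finset β) (hB : ∀ a, f a ∈ B) :
    (Fintype.card α) ^ 2 ≤ B.card *
      ((Finset.univ : Finset (α × α)).filter (fun p => f p.1 = f p.2)).card := by
  have h1 : Fintype.card α = ∑ b ∈ B, ((Finset.univ : Finset α).filter (fun a => f a = b)).card := by
    rw [← Finset.card_univ]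
    exact Finset.card_eq_sum_card_fiberwise (fun a _ => hB a)
  have h2 : ((Finset.univ : Finset (α × α)).filter (fun p => f p.1 = f p.2)).card =
      ∑ b ∈ B, ((Finset.univ : Finset α).filter (fun a => f a = b)).card ^ 2 := by
    rw [Finset.card_eq_sum_card_fiberwise (f := fun p => f p.1) (t := B) (fun p _ => hB p.1)]
    apply Finset.sum_congr rfl
    intro b _
    rw [sq, ← Finset.card_product]
    congr 1
    ext p
    simp only [Finset.mem_filter, Finset.mem_univ, true_and, Finset.mem_product]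
    constructor
    · rintro ⟨h3, h4⟩
      exact ⟨h4, h3 ▸ h4⟩
    · rintro ⟨h3, h4⟩
      exact ⟨h3.trans h4.symm, h3⟩
  rw [h1, h2]
  exact_mod_cast sq_sum_le_card_mul_sum_sq

/-- The number of pairs of injective tuples that are related by a linear map fixing the base
vectors. -/
theorem card_related_le {W : Type*} [AddCommGroup W] [Module ℝ W] [DecidableEq W] {e : ℕ}
    (x : Fin e → W) (Z : Finset W) {j : ℕ} (hj : 2 ≤ j)
    (Q : Finset ((Fin j ↪ Z) × (Fin j ↪ Z)))
    (hQ : ∀ q ∈ Q, ∃ L : W →ₗ[ℝ] W, (∀ i, L (x i) = x i) ∧ ∀ l, L (q.1 l) = q.2 l) :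
    Q.card ≤ ∑ G ∈ graphFamily x Z, G.card ^ j := by
  classical
  choose! L hL1 hL2 using hQ
  have h1 : ((graphFamily x Z).sigma (fun G => Fintype.piFinset (fun _ : Fin j => G))).card =
      ∑ G ∈ graphFamily x Z, G.card ^ j := by
    rw [Finset.card_sigma]
    apply Finset.sum_congr rfl
    intro G _
    rw [Fintype.card_piFinset]
    simp
  rw [← h1]
  apply Finset.card_le_card_of_injOn
    (fun q => ⟨graphOn Z (L q), fun l => ((q.1 l : W), (q.2 l : W))⟩)
  · intro q hq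
    have hq' := Finset.mem_coe.1 hq
    have hmem : ∀ l, ((q.1 l : W), (q.2 l : W)) ∈ graphOn Z (L q) := by
      intro l
      rw [mem_graphOn]
      exact ⟨⟨(q.1 l).2, (q.2 l).2⟩, hL2 q hq' l⟩
    rw [Finset.mem_coe, Finset.mem_sigma]
    refine ⟨?_, ?_⟩
    · rw [mem_graphFamily]
      refine ⟨?_, L q, hL1 q hq', rfl⟩
      have h2 : Finset.card {((q.1 ⟨0, by omega⟩ : W), (q.2 ⟨0, by omega⟩ : W)),
          ((q.1 ⟨1, by omega⟩ : W), (q.2 ⟨1, by omega⟩ : W))} = 2 := by
        rw [Finset.card_pair]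
        intro hcon
        have h3 := (Prod.mk.inj hcon).1
        have h4 := q.1.injective (Subtype.ext h3)
        simp at h4
      rw [← h2]
      apply Finset.card_le_card
      intro p hp
      rw [Finset.mem_insert, Finset.mem_singleton] at hp
      rcases hp with rfl | rfl
      · exact hmem _
      · exact hmem _
    · rw [Fintype.mem_piFinset]
      exact hmem
  · intro q _ q' _ hqq
    simp only [Sigma.mk.injEq] at hqq
    have h2 := eq_of_heq hqq.2
    have h3 : q.1 = q'.1 := by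
      ext l
      exact (Prod.mk.inj (congrFun h2 l)).1
    have h4 : q.2 = q'.2 := by
      ext l
      exact (Prod.mk.inj (congrFun h2 l)).2
    exact Prod.ext h3 h4

/-- The lower bound for the number of classes given by a configuration. -/
theorem LConfig.numClasses_bound {P : Finset (Fin d → ℝ)} {e : ℕ}
    {x : Fin e → (Fin d → ℝ) × ℝ} {Y : Finset ((Fin d → ℝ) × ℝ)}
    (h : LConfig (P.image lift) x Y) (hY : 2 ≤ Y.card) {j : ℕ} (hj : 2 ≤ j) :
    ∃ (Z : Finset ((Fin d → ℝ) × ℝ)) (ξ : (Fin d → ℝ) × ℝ → ℝ)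
      (𝓕 : Finset (Finset (((Fin d → ℝ) × ℝ) × ((Fin d → ℝ) × ℝ)))),
      Z.card = Y.card - 1 ∧ RichFamily Z ξ 𝓕 ∧
    ((Y.card - 1).descFactorial j) ^ 2 ≤
      numClasses (e + j) P * ((e + j) ^ (e + j)) * ∑ G ∈ 𝓕, G.card ^ j := by
  classical
  obtain ⟨y₁, hy₁, y₂, hy₂, hne⟩ := Finset.one_lt_card.1 hY
  set Z := Y.erase y₁ with hZ
  have hZcard : Z.card = Y.card - 1 := Finset.card_erase_of_mem hy₁
  obtain ⟨ξ, hrich⟩ := h.richFamily hy₁ hy₂ hne
  rw [← hZ] at hrich
  refine ⟨Z, ξ, _, hZcard, hrich, ?_⟩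
  -- the tuples
  set τ : (Fin j ↪ Z) → (Fin e ⊕ Fin j) → (Fin d → ℝ) × ℝ :=
    fun ω => Sum.elim x (fun l => (ω l : (Fin d → ℝ) × ℝ)) with hτ
  have hτmem : ∀ ω i, τ ω i ∈ P.image lift := by
    intro ω i
    rcases i with i | l
    · exact h.mem i
    · exact h.sub (Finset.mem_erase.1 (ω l).2).2
  have hτlift : ∀ ω i, τ ω i = lift (τ ω i).1 ∧ (τ ω i).1 ∈ P := by
    intro ω i
    obtain ⟨v, hv, hv'⟩ := Finset.mem_image.1 (hτmem ω i)
    rw [← hv']
    exact ⟨rfl, hv⟩
  have hτinj : ∀ ω, Function.Injective (τ ω) := by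
    intro ω
    apply Function.Injective.sumElim h.inj
    · intro l l' hll
      exact ω.injective (Subtype.ext hll)
    · intro i l hil
      have h1 := Finset.mem_erase.1 (ω l).2
      have h2 := h.ind _ h1.2 y₁ hy₁ h1.1 1 0 (by
        rw [one_smul, zero_smul, add_zero, ← hil]
        exact Submodule.subset_span ⟨i, rfl⟩)
      exact one_ne_zero h2.1
  have hτinj' : ∀ ω, Function.Injective (fun i => (τ ω i).1) := by
    intro ω i i' hii
    apply hτinj ω
    rw [(hτlift ω i).1, (hτlift ω i').1]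
    simp only at hii
    rw [hii]
  set S : (Fin j ↪ Z) → Finset (Fin d → ℝ) :=
    fun ω => Finset.univ.image (fun i => (τ ω i).1) with hS
  have hScard : ∀ ω, (S ω).card = e + j := by
    intro ω
    rw [hS, Finset.card_image_of_injective _ (hτinj' ω)]
    simp
  have hSP : ∀ ω, S ω ⊆ P := by
    intro ω v hv
    obtain ⟨i, _, rfl⟩ := Finset.mem_image.1 hv
    exact (hτlift ω i).2
  -- the class map and its representatives
  set c : (Fin j ↪ Z) → Set (Finset (Fin d → ℝ)) := fun ω => affClass (S ω) with hc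
  have hrep : ∀ ω, ∃ ω', c ω' = c ω := fun ω => ⟨ω, rfl⟩
  have hrep' : ∃ rep : Set (Finset (Fin d → ℝ)) → Option (Fin j ↪ Z),
      ∀ ω, ∃ ω', rep (c ω) = some ω' ∧ c ω' = c ω := by
    refine ⟨fun γ => if hγ : ∃ ω', c ω' = γ then some hγ.choose else none, ?_⟩
    intro ω
    have hγ : ∃ ω', c ω' = c ω := ⟨ω, rfl⟩
    refine ⟨hγ.choose, ?_, hγ.choose_spec⟩
    simp only [hγ, dif_pos]
  obtain ⟨rep, hrep⟩ := hrep'
  have hTψ : ∀ ω, ∃ (T : (Fin d → ℝ) ≃ᵃ[ℝ] (Fin d → ℝ)) (ψ : (Fin e ⊕ Fin j) → (Fin e ⊕ Fin j)),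
      ∀ ω', rep (c ω) = some ω' → ∀ i, T (τ ω i).1 = (τ ω' (ψ i)).1 := by
    intro ω
    obtain ⟨ω', h1, h2⟩ := hrep ω
    obtain ⟨T, hT⟩ := affClass_eq_iff.1 h2.symm
    have h3 : ∀ i, ∃ i', (τ ω' i').1 = T (τ ω i).1 := by
      intro i
      have h4 : T (τ ω i).1 ∈ (S ω' : Set (Fin d → ℝ)) := by
        rw [← hT]
        exact ⟨_, Finset.mem_coe.2 (Finset.mem_image_of_mem _ (Finset.mem_univ i)), rfl⟩
      obtain ⟨i', _, hi'⟩ := Finset.mem_image.1 (Finset.mem_coe.1 h4)
      exact ⟨i', hi'⟩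
    choose ψ hψ using h3
    refine ⟨T, ψ, ?_⟩
    intro ω'' hω''
    rw [h1] at hω''
    cases hω''
    intro i
    exact (hψ i).symm
  choose T ψ hψ using hTψ
  set B : Finset (Set (Finset (Fin d → ℝ)) × ((Fin e ⊕ Fin j) → (Fin e ⊕ Fin j))) :=
    (Finset.univ.image c) ×ˢ Finset.univ with hB
  have hCS := card_sq_le_card_mul (fun ω => (c ω, ψ ω)) B (by
    intro ω
    rw [hB, Finset.mem_product]
    exact ⟨Finset.mem_image_of_mem _ (Finset.mem_univ ω), Finset.mem_univ _⟩)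
  have hrel : ((Finset.univ : Finset ((Fin j ↪ Z) × (Fin j ↪ Z))).filter
      (fun p => (c p.1, ψ p.1) = (c p.2, ψ p.2))).card ≤ ∑ G ∈ graphFamily x Z, G.card ^ j := by
    refine card_related_le x Z (by omega) _ ?_
    intro q hq
    have h1 := (Finset.mem_filter.1 hq).2
    have hcc : c q.1 = c q.2 := (Prod.mk.inj h1).1
    have hψψ : ψ q.1 = ψ q.2 := (Prod.mk.inj h1).2
    obtain ⟨ω', h2, _⟩ := hrep q.1
    have h3 := hψ q.1 ω' h2
    have h4 := hψ q.2 ω' (by rw [← hcc]; exact h2)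
    have h5 : ∀ i, ((T q.1).trans (T q.2).symm) (τ q.1 i).1 = (τ q.2 i).1 := by
      intro i
      rw [AffineEquiv.trans_apply, h3 i, hψψ, ← h4 i, AffineEquiv.symm_apply_apply]
    have h6 : ∀ i, hatMap ((T q.1).trans (T q.2).symm) (τ q.1 i) = τ q.2 i := by
      intro i
      rw [(hτlift q.1 i).1, hatMap_lift, h5 i, ← (hτlift q.2 i).1]
    refine ⟨hatMap ((T q.1).trans (T q.2).symm), ?_, ?_⟩
    · intro i
      exact h6 (Sum.inl i)
    · intro l
      exact h6 (Sum.inr l)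
  have hcard1 : Fintype.card (Fin j ↪ Z) = (Y.card - 1).descFactorial j := by
    rw [Fintype.card_embedding_eq]
    simp [hZcard]
  have hcard2 : B.card ≤ numClasses (e + j) P * ((e + j) ^ (e + j)) := by
    rw [hB, Finset.card_product]
    apply Nat.mul_le_mul
    · rw [numClasses_eq, ← Set.ncard_coe_finset]
      apply Set.ncard_le_ncard _ (classSet_finite _ P)
      intro γ hγ
      obtain ⟨ω, _, rfl⟩ := Finset.mem_image.1 (Finset.mem_coe.1 hγ)
      exact ⟨S ω, hSP ω, hScard ω, rfl⟩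
    · simp
  rw [hcard1] at hCS
  calc _ ≤ _ := hCS
    _ ≤ _ := Nat.mul_le_mul hcard2 hrel

end Pool.Agent.Lib.MP_b430f2_co
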