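import Mathlib

/-! Partitions of finite planar point sets such that every line meets few cells. -/

namespace Pool.Agent.Lib.MP_b430f2_co

open Finset

variable {α : Type*}

/-- The maximum of `g` on `A` (and `0` if `A` is empty). -/
noncomputable def mx (A : Finset α) (g : α → ℝ) : ℝ :=
  if h : A.Nonempty then A.sup' h g else 0

/-- The `k`-th smallest value of `g` on `X`. -/
noncomputable def ordStat (X : Finset α) (k : ℕ) (g : α → ℝ) : ℝ :=
  if h : (X.powersetCard k).Nonempty then (X.powersetCard k).inf' h (fun A => mx A g) else 0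

theorem continuous_mx (A : Finset α) (g : ℝ → α → ℝ) (hg : ∀ x, Continuous (fun s => g s x)) :
    Continuous (fun s => mx A (g s)) := by
  unfold mx
  split_ifs with h
  · exact Continuous.finset_sup'_apply h (fun i _ => hg i)
  · exact continuous_const

theorem continuous_ordStat (X : Finset α) (k : ℕ) (g : ℝ → α → ℝ)
    (hg : ∀ x, Continuous (fun s => g s x)) : Continuous (fun s => ordStat X k (g s)) := by
  unfold ordStat
  split_ifs with h
  · exact Continuous.finset_inf'_apply h (fun A _ => continuous_mx A g hg)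
  · exact continuous_const

theorem ordStat_spec (X : Finset α) {k : ℕ} (hk : 1 ≤ k) (hkX : k ≤ X.card) (g : α → ℝ) :
    (∃ x ∈ X, ordStat X k g = g x) ∧ (X.filter (fun x => g x < ordStat X k g)).card < k ∧
      (X.filter (fun x => ordStat X k g < g x)).card + k ≤ X.card := by
  classical
  have hne : (X.powersetCard k).Nonempty := Finset.powersetCard_nonempty.2 hkX
  have hval : ordStat X k g = (X.powersetCard k).inf' hne (fun A => mx A g) := by
    unfold ordStat
    rw [dif_pos hne]
  obtain ⟨A, hA, hAval⟩ := Finset.exists_mem_eq_inf' hne (fun A => mx A g)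
  obtain ⟨hAX, hAk⟩ := Finset.mem_powersetCard.1 hA
  have hAne : A.Nonempty := Finset.card_pos.1 (by omega)
  have hAmx : mx A g = A.sup' hAne g := by
    unfold mx
    rw [dif_pos hAne]
  refine ⟨?_, ?_, ?_⟩
  · obtain ⟨x, hx, hx'⟩ := Finset.exists_mem_eq_sup' hAne g
    exact ⟨x, hAX hx, by rw [hval, hAval, hAmx, hx']⟩
  · by_contra hcon
    push Not at hcon
    obtain ⟨B, hB, hBk⟩ := Finset.exists_subset_card_eq hcon
    have hBne : B.Nonempty := Finset.card_pos.1 (by omega)
    have h1 : mx B g < ordStat X k g := by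
      unfold mx
      rw [dif_pos hBne, Finset.sup'_lt_iff]
      intro x hx
      exact (Finset.mem_filter.1 (hB hx)).2
    have h2 : ordStat X k g ≤ mx B g := by
      rw [hval]
      apply Finset.inf'_le (fun A => mx A g)
      rw [Finset.mem_powersetCard]
      exact ⟨hB.trans (Finset.filter_subset _ _), hBk⟩
    linarith
  · have h1 : Disjoint (X.filter (fun x => ordStat X k g < g x)) A := by
      rw [Finset.disjoint_left]
      intro x hx hxA
      have h2 : g x ≤ A.sup' hAne g := Finset.le_sup' g hxA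
      have h3 := (Finset.mem_filter.1 hx).2
      rw [hval, hAval, hAmx] at h3
      linarith
    have h2 := Finset.card_union_of_disjoint h1
    have h3 := Finset.card_le_card (Finset.union_subset (Finset.filter_subset _ _) hAX :
      X.filter (fun x => ordStat X k g < g x) ∪ A ⊆ X)
    omega

/-- The median. -/
noncomputable def med (X : Finset α) (g : α → ℝ) : ℝ := ordStat X ((X.card + 1) / 2) g

theorem med_spec (X : Finset α) (hX : X.Nonempty) (g : α → ℝ) :
    (∃ x ∈ X, med X g = g x) ∧ 2 * (X.filter (fun x => g x < med X g)).card ≤ X.card ∧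
      2 * (X.filter (fun x => med X g < g x)).card ≤ X.card := by
  have h0 := Finset.card_pos.2 hX
  obtain ⟨h1, h2, h3⟩ := ordStat_spec X (k := (X.card + 1) / 2) (by omega) (by omega) g
  refine ⟨h1, ?_, ?_⟩
  · unfold med; omega
  · unfold med; omega

/-- A line that bisects two sets separated by a vertical line. -/
theorem ham_sandwich (XL XR : Finset α) (u v : α → ℝ)
    (hLR : ∀ x ∈ XL, ∀ y ∈ XR, u x < u y) :
    ∃ s b : ℝ, (2 * (XL.filter (fun x => v x - s * u x < b)).card ≤ XL.card ∧
      2 * (XL.filter (fun x => b < v x - s * u x)).card ≤ XL.card) ∧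
      (2 * (XR.filter (fun x => v x - s * u x < b)).card ≤ XR.card ∧
      2 * (XR.filter (fun x => b < v x - s * u x)).card ≤ XR.card) := by
  classical
  rcases XL.eq_empty_or_nonempty with hL | hL
  · rcases XR.eq_empty_or_nonempty with hR | hR
    · refine ⟨0, 0, ?_⟩
      simp [hL, hR]
    · obtain ⟨_, h1, h2⟩ := med_spec XR hR (fun x => v x - 0 * u x)
      refine ⟨0, med XR (fun x => v x - 0 * u x), ?_, h1, h2⟩
      simp [hL]
  rcases XR.eq_empty_or_nonempty with hR | hR
  · obtain ⟨_, h1, h2⟩ := med_spec XL hL (fun x => v x - 0 * u x)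
    refine ⟨0, med XL (fun x => v x - 0 * u x), ⟨h1, h2⟩, ?_⟩
    simp [hR]
  set h : ℝ → ℝ := fun s => med XL (fun x => v x - s * u x) - med XR (fun x => v x - s * u x)
    with hh
  have hcont : Continuous h := by
    apply Continuous.sub
    · exact continuous_ordStat XL _ (fun s x => v x - s * u x) (fun x => by fun_prop)
    · exact continuous_ordStat XR _ (fun s x => v x - s * u x) (fun x => by fun_prop)
  set f : α × α → ℝ := fun p => (v p.2 - v p.1) / (u p.2 - u p.1) with hf
  obtain ⟨sp, hsp⟩ := ((XL ×ˢ XR).image f).exists_le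
  obtain ⟨sm, hsm⟩ : ∃ M, ∀ i ∈ (XL ×ˢ XR).image f, M ≤ i := by
    obtain ⟨M, hM⟩ := (((XL ×ˢ XR).image f).image (fun t => -t)).exists_le
    refine ⟨-M, fun i hi => ?_⟩
    have := hM (-i) (Finset.mem_image_of_mem _ hi)
    linarith
  have h0 : (0 : ℝ) ∈ Set.range h := by
    apply mem_range_of_exists_le_of_exists_ge hcont
    · refine ⟨sm, ?_⟩
      obtain ⟨⟨x, hx, hx'⟩, _⟩ := med_spec XL hL (fun x => v x - sm * u x)
      obtain ⟨⟨y, hy, hy'⟩, _⟩ := med_spec XR hR (fun x => v x - sm * u x)
      have h1 := hsm (f (x, y)) (Finset.mem_image_of_mem _ (Finset.mk_mem_product hx hy))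
      have h2 := hLR x hx y hy
      simp only [hf] at h1
      rw [le_div_iff₀ (by linarith)] at h1
      simp only [hh, hx', hy']
      linarith
    · refine ⟨sp, ?_⟩
      obtain ⟨⟨x, hx, hx'⟩, _⟩ := med_spec XL hL (fun x => v x - sp * u x)
      obtain ⟨⟨y, hy, hy'⟩, _⟩ := med_spec XR hR (fun x => v x - sp * u x)
      have h1 := hsp (f (x, y)) (Finset.mem_image_of_mem _ (Finset.mk_mem_product hx hy))
      have h2 := hLR x hx y hy
      simp only [hf] at h1
      rw [div_le_iff₀ (by linarith)] at h1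
      simp only [hh, hx', hy']
      linarith
  obtain ⟨s, hs⟩ := h0
  have hs' : med XL (fun x => v x - s * u x) = med XR (fun x => v x - s * u x) := by
    simp only [hh] at hs
    linarith
  obtain ⟨_, h1, h2⟩ := med_spec XL hL (fun x => v x - s * u x)
  obtain ⟨_, h3, h4⟩ := med_spec XR hR (fun x => v x - s * u x)
  refine ⟨s, med XL (fun x => v x - s * u x), ⟨h1, h2⟩, ?_⟩
  rw [hs']
  exact ⟨h3, h4⟩

/-- Two lines such that each open quadrant contains at most a quarter of the points. -/
theorem exists_quadrants (X : Finset α) (u v : α → ℝ) :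
    ∃ c s b : ℝ, ∀ i j : Bool, 4 * (X.filter (fun x => (u x ≠ c ∧ v x - s * u x ≠ b) ∧
      (decide (u x < c) = i ∧ decide (v x - s * u x < b) = j))).card ≤ X.card := by
  classical
  obtain ⟨c, hc1, hc2⟩ : ∃ c : ℝ, 2 * (X.filter (fun x => u x < c)).card ≤ X.card ∧
      2 * (X.filter (fun x => c < u x)).card ≤ X.card := by
    rcases X.eq_empty_or_nonempty with h | h
    · exact ⟨0, by simp [h], by simp [h]⟩
    · obtain ⟨_, h1, h2⟩ := med_spec X h u
      exact ⟨_, h1, h2⟩
  obtain ⟨s, b, ⟨h1, h2⟩, h3, h4⟩ := ham_sandwich (X.filter (fun x => u x < c))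
    (X.filter (fun x => c < u x)) u v (by
      intro x hx y hy
      exact (Finset.mem_filter.1 hx).2.trans (Finset.mem_filter.1 hy).2)
  refine ⟨c, s, b, ?_⟩
  intro i j
  rcases i with _ | _ <;> rcases j with _ | _
  · have : (X.filter (fun x => (u x ≠ c ∧ v x - s * u x ≠ b) ∧
      (decide (u x < c) = false ∧ decide (v x - s * u x < b) = false))).card ≤
      ((X.filter (fun x => c < u x)).filter (fun x => b < v x - s * u x)).card := by
      apply Finset.card_le_card
      intro x hx
      simp only [Finset.mem_filter, decide_eq_false_iff_not, not_lt] at hx ⊢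
      exact ⟨⟨hx.1, lt_of_le_of_ne hx.2.2.1 hx.2.1.1.symm⟩,
        lt_of_le_of_ne hx.2.2.2 hx.2.1.2.symm⟩
    omega
  · have : (X.filter (fun x => (u x ≠ c ∧ v x - s * u x ≠ b) ∧
      (decide (u x < c) = false ∧ decide (v x - s * u x < b) = true))).card ≤
      ((X.filter (fun x => c < u x)).filter (fun x => v x - s * u x < b)).card := by
      apply Finset.card_le_card
      intro x hx
      simp only [Finset.mem_filter, decide_eq_false_iff_not, not_lt, decide_eq_true_eq] at hx ⊢
      exact ⟨⟨hx.1, lt_of_le_of_ne hx.2.2.1 hx.2.1.1.symm⟩, hx.2.2.2⟩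
    omega
  · have : (X.filter (fun x => (u x ≠ c ∧ v x - s * u x ≠ b) ∧
      (decide (u x < c) = true ∧ decide (v x - s * u x < b) = false))).card ≤
      ((X.filter (fun x => u x < c)).filter (fun x => b < v x - s * u x)).card := by
      apply Finset.card_le_card
      intro x hx
      simp only [Finset.mem_filter, decide_eq_false_iff_not, not_lt, decide_eq_true_eq] at hx ⊢
      exact ⟨⟨hx.1, hx.2.2.1⟩, lt_of_le_of_ne hx.2.2.2 hx.2.1.2.symm⟩
    omega
  · have : (X.filter (fun x => (u x ≠ c ∧ v x - s * u x ≠ b) ∧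
      (decide (u x < c) = true ∧ decide (v x - s * u x < b) = true))).card ≤
      ((X.filter (fun x => u x < c)).filter (fun x => v x - s * u x < b)).card := by
      apply Finset.card_le_card
      intro x hx
      simp only [Finset.mem_filter, decide_eq_true_eq] at hx ⊢
      exact ⟨⟨hx.1, hx.2.2.1⟩, hx.2.2.2⟩
    omega

/-- A line misses one of the four open quadrants. -/
theorem line_misses (c s b A B C : ℝ) (hABC : ¬ (A = 0 ∧ B = 0 ∧ C = 0)) (u v : α → ℝ) :
    ∃ q : Bool × Bool, ∀ x, (u x ≠ c ∧ v x - s * u x ≠ b) → A + B * u x + C * v x = 0 →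
      (decide (u x < c), decide (v x - s * u x < b)) ≠ q := by
  by_contra hcon
  push Not at hcon
  obtain ⟨x1, ⟨h1a, h1b⟩, h1c, h1d⟩ := hcon (true, true)
  obtain ⟨x2, ⟨h2a, h2b⟩, h2c, h2d⟩ := hcon (true, false)
  obtain ⟨x3, ⟨h3a, h3b⟩, h3c, h3d⟩ := hcon (false, true)
  obtain ⟨x4, ⟨h4a, h4b⟩, h4c, h4d⟩ := hcon (false, false)
  simp only [Prod.mk.injEq, decide_eq_true_eq, decide_eq_false_iff_not, not_lt] at h1d h2d h3d h4d
  have h2b' : b < v x2 - s * u x2 := lt_of_le_of_ne h2d.2 h2b.symm
  have h3a' : c < u x3 := lt_of_le_of_ne h3d.1 h3a.symm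
  have h4a' : c < u x4 := lt_of_le_of_ne h4d.1 h4a.symm
  have h4b' : b < v x4 - s * u x4 := lt_of_le_of_ne h4d.2 h4b.symm
  obtain ⟨h1d1, h1d2⟩ := h1d
  have h2d1 := h2d.1
  have h3d2 := h3d.2
  by_cases hC : C = 0
  · subst hC
    by_cases hB : B = 0
    · subst hB
      apply hABC
      simp only [zero_mul, add_zero] at h1c
      exact ⟨h1c, rfl, rfl⟩
    · have h5 : B * (u x1 - u x3) = 0 := by linarith
      rcases mul_eq_zero.1 h5 with h | h
      · exact hB h
      · linarith
  · -- slope of the line relative to the second line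
    have e : ∀ x, A + B * u x + C * v x = 0 → v x - s * u x = -(A / C) - (B / C + s) * u x := by
      intro x hx
      have : v x = -(A / C) - (B / C) * u x := by
        field_simp
        linarith
      rw [this]; ring
    rw [e x1 h1c] at h1d2
    rw [e x2 h2c] at h2b'
    rw [e x3 h3c] at h3d2
    rw [e x4 h4c] at h4b'
    rcases le_total (B / C + s) 0 with h | h
    · -- nondecreasing: x2 is above but x3 is below, with u x2 < u x3
      have : (B / C + s) * u x3 ≤ (B / C + s) * u x2 :=
        mul_le_mul_of_nonpos_left (by linarith) h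
      linarith
    · have : (B / C + s) * u x1 ≤ (B / C + s) * u x4 :=
        mul_le_mul_of_nonneg_left (by linarith) h
      linarith

/-- The bound for the number of lines used in a partition of depth `T`. -/
def numLines : ℕ → ℕ
  | 0 => 0
  | T + 1 => 2 + 4 * numLines T

/-- A partition of depth `T`: apart from the points on few lines, every cell is small and every
line meets few cells. -/
theorem exists_partition (T : ℕ) : ∀ (X : Finset α) (u v : α → ℝ),
    ∃ (Λ : Finset (ℝ × ℝ × ℝ)) (κ : α → List (Bool × Bool)),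
      Λ.card ≤ numLines T ∧ (∀ l ∈ Λ, ¬ (l.1 = 0 ∧ l.2.1 = 0 ∧ l.2.2 = 0)) ∧
      (∀ c, 4 ^ T * (X.filter (fun x => (∀ l ∈ Λ, l.1 + l.2.1 * u x + l.2.2 * v x ≠ 0) ∧
        κ x = c)).card ≤ X.card) ∧
      (∀ A B C : ℝ, ¬ (A = 0 ∧ B = 0 ∧ C = 0) →
        ((X.filter (fun x => (∀ l ∈ Λ, l.1 + l.2.1 * u x + l.2.2 * v x ≠ 0) ∧
          A + B * u x + C * v x = 0)).image κ).card ≤ 3 ^ T) := by
  classical
  induction T with
  | zero =>
    intro X u v
    refine ⟨∅, fun _ => [], by simp, by simp, ?_, ?_⟩
    · intro c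
      rw [pow_zero, one_mul]
      exact Finset.card_le_card (Finset.filter_subset _ _)
    · intro A B C _
      rw [pow_zero]
      calc _ ≤ ({([] : List (Bool × Bool))} : Finset _).card := by
            apply Finset.card_le_card
            intro y hy
            obtain ⟨x, _, rfl⟩ := Finset.mem_image.1 hy
            simp
        _ = 1 := Finset.card_singleton _
  | succ T ih =>
    intro X u v
    obtain ⟨c, s, b, hq⟩ := exists_quadrants X u v
    set q : α → Bool × Bool := fun x => (decide (u x < c), decide (v x - s * u x < b)) with hqdef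
    set XQ : Bool × Bool → Finset α := fun w => X.filter (fun x => (u x ≠ c ∧ v x - s * u x ≠ b) ∧
      (decide (u x < c) = w.1 ∧ decide (v x - s * u x < b) = w.2)) with hXQ
    choose Λ κ hΛ1 hΛ2 hκ1 hκ2 using fun w => ih (XQ w) u v
    set l1 : ℝ × ℝ × ℝ := (-c, 1, 0) with hl1
    set l2 : ℝ × ℝ × ℝ := (-b, -s, 1) with hl2
    set Λ' : Finset (ℝ × ℝ × ℝ) := insert l1 (insert l2 (Finset.univ.biUnion Λ)) with hΛ'
    have hXstar : ∀ x ∈ X, (∀ l ∈ Λ', l.1 + l.2.1 * u x + l.2.2 * v x ≠ 0) →
        x ∈ XQ (q x) ∧ ∀ l ∈ Λ (q x), l.1 + l.2.1 * u x + l.2.2 * v x ≠ 0 := by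
      intro x hx hl
      have h1 := hl l1 (by simp [hΛ'])
      have h2 := hl l2 (by simp [hΛ'])
      simp only [hl1, hl2] at h1 h2
      refine ⟨?_, ?_⟩
      · rw [hXQ, Finset.mem_filter]
        refine ⟨hx, ⟨?_, ?_⟩, rfl, rfl⟩
        · intro h; apply h1; rw [h]; ring
        · intro h; apply h2; linarith
      · intro l hlq
        apply hl
        rw [hΛ', Finset.mem_insert, Finset.mem_insert, Finset.mem_biUnion]
        exact Or.inr (Or.inr ⟨q x, Finset.mem_univ _, hlq⟩)
    refine ⟨Λ', fun x => q x :: κ (q x) x, ?_, ?_, ?_, ?_⟩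
    · have h1 : (Finset.univ.biUnion Λ).card ≤ ∑ w : Bool × Bool, (Λ w).card :=
        Finset.card_biUnion_le
      have h2 : ∑ w : Bool × Bool, (Λ w).card ≤ ∑ w : Bool × Bool, numLines T :=
        Finset.sum_le_sum (fun w _ => hΛ1 w)
      have h3 : ∑ w : Bool × Bool, numLines T = 4 * numLines T := by simp
      have h4 : Λ'.card ≤ (Finset.univ.biUnion Λ).card + 1 + 1 :=
        (Finset.card_insert_le _ _).trans (Nat.add_le_add_right (Finset.card_insert_le _ _) 1)
      show Λ'.card ≤ 2 + 4 * numLines T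
      omega
    · intro l hl
      rw [hΛ', Finset.mem_insert, Finset.mem_insert, Finset.mem_biUnion] at hl
      rcases hl with rfl | rfl | ⟨w, _, hw⟩
      · simp [hl1]
      · simp [hl2]
      · exact hΛ2 w l hw
    · intro z
      rcases z with _ | ⟨w, z⟩
      · have : X.filter (fun x => (∀ l ∈ Λ', l.1 + l.2.1 * u x + l.2.2 * v x ≠ 0) ∧
            (q x :: κ (q x) x) = []) = ∅ := by
          apply Finset.filter_eq_empty_iff.2
          intro x _ h
          exact List.cons_ne_nil _ _ h.2
        rw [this]; simp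
      · have h1 : (X.filter (fun x => (∀ l ∈ Λ', l.1 + l.2.1 * u x + l.2.2 * v x ≠ 0) ∧
            (q x :: κ (q x) x) = w :: z)).card ≤
            ((XQ w).filter (fun x => (∀ l ∈ Λ w, l.1 + l.2.1 * u x + l.2.2 * v x ≠ 0) ∧
              κ w x = z)).card := by
          apply Finset.card_le_card
          intro x hx
          rw [Finset.mem_filter] at hx
          obtain ⟨hxX, hxl, hxq⟩ := hx
          obtain ⟨h2, h3⟩ := List.cons.inj hxq
          obtain ⟨h4, h5⟩ := hXstar x hxX hxl
          rw [h2] at h3 h4 h5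
          rw [Finset.mem_filter]
          exact ⟨h4, h5, h3⟩
        have h2 := hκ1 w z
        have h3 := hq w.1 w.2
        have h4 : 4 * (XQ w).card ≤ X.card := h3
        calc 4 ^ (T + 1) * _ ≤ 4 ^ (T + 1) * ((XQ w).filter (fun x =>
              (∀ l ∈ Λ w, l.1 + l.2.1 * u x + l.2.2 * v x ≠ 0) ∧ κ w x = z)).card :=
              Nat.mul_le_mul_left _ h1
          _ = 4 * (4 ^ T * ((XQ w).filter (fun x =>
              (∀ l ∈ Λ w, l.1 + l.2.1 * u x + l.2.2 * v x ≠ 0) ∧ κ w x = z)).card) := by ring
          _ ≤ 4 * (XQ w).card := Nat.mul_le_mul_left _ h2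
          _ ≤ X.card := h4
    · intro A B C hABC
      obtain ⟨q0, hq0⟩ := line_misses c s b A B C hABC u v
      have h1 : ((X.filter (fun x => (∀ l ∈ Λ', l.1 + l.2.1 * u x + l.2.2 * v x ≠ 0) ∧
          A + B * u x + C * v x = 0)).image (fun x => q x :: κ (q x) x)) ⊆
          ((Finset.univ : Finset (Bool × Bool)).erase q0).biUnion (fun w =>
            (((XQ w).filter (fun x => (∀ l ∈ Λ w, l.1 + l.2.1 * u x + l.2.2 * v x ≠ 0) ∧
              A + B * u x + C * v x = 0)).image (κ w)).image (fun z => w :: z)) := by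
        intro z hz
        obtain ⟨x, hx, rfl⟩ := Finset.mem_image.1 hz
        rw [Finset.mem_filter] at hx
        obtain ⟨hxX, hxl, hxABC⟩ := hx
        obtain ⟨h4, h5⟩ := hXstar x hxX hxl
        rw [Finset.mem_biUnion]
        have h6 := (Finset.mem_filter.1 h4).2.1
        refine ⟨q x, ?_, ?_⟩
        · rw [Finset.mem_erase]
          exact ⟨hq0 x h6 hxABC, Finset.mem_univ _⟩
        · apply Finset.mem_image_of_mem
          apply Finset.mem_image_of_mem
          rw [Finset.mem_filter]
          exact ⟨h4, h5, hxABC⟩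
      calc _ ≤ _ := Finset.card_le_card h1
        _ ≤ ∑ w ∈ (Finset.univ : Finset (Bool × Bool)).erase q0, 3 ^ T := by
            refine Finset.card_biUnion_le.trans ?_
            apply Finset.sum_le_sum
            intro w _
            exact Finset.card_image_le.trans (hκ2 w A B C hABC)
        _ = 3 ^ (T + 1) := by
            rw [Finset.sum_const, Finset.card_erase_of_mem (Finset.mem_univ _)]
            simp [pow_succ, mul_comm]

end Pool.Agent.Lib.MP_b430f2_co
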