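import Mathlib
import Pool.Agent.Lib.MP_b430f2_co.Partition

/-! A weak form of Dirac's conjecture for finite sets of vectors (points of a projective space). -/

namespace Pool.Agent.Lib.MP_b430f2_co

open Finset

set_option linter.unusedSectionVars false

variable {W : Type*} [AddCommGroup W] [Module ℝ W] [DecidableEq W]

/-- Any two different vectors of `X` are independent. -/
def PairInd (X : Finset W) : Prop :=
  ∀ x ∈ X, ∀ y ∈ X, x ≠ y → ∀ s t : ℝ, s • x + t • y = 0 → s = 0 ∧ t = 0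

theorem span_pair_eq {X : Finset W} (hX : PairInd X) {a b x y : W} (hx : x ∈ X) (hy : y ∈ X)
    (hxy : x ≠ y) (hxa : x ∈ Submodule.span ℝ {a, b}) (hya : y ∈ Submodule.span ℝ {a, b}) :
    Submodule.span ℝ {x, y} = Submodule.span ℝ {a, b} := by
  obtain ⟨p, q, rfl⟩ := Submodule.mem_span_pair.1 hxa
  obtain ⟨r, s, rfl⟩ := Submodule.mem_span_pair.1 hya
  have hdet : p * s - q * r ≠ 0 := by
    intro h0
    -- both combinations vanish
    have h1 := hX _ hx _ hy hxy s (-q) (by
      have : s • (p • a + q • b) + (-q) • (r • a + s • b) = (p * s - q * r) • a := by module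
      rw [this, h0, zero_smul])
    have h2 := hX _ hx _ hy hxy r (-p) (by
      have : r • (p • a + q • b) + (-p) • (r • a + s • b) = (-(p * s - q * r)) • b := by module
      rw [this, h0, neg_zero, zero_smul])
    obtain ⟨h3, h4⟩ := h1
    obtain ⟨h5, h6⟩ := h2
    have h7 : p = 0 := by linarith
    have h8 : q = 0 := by linarith
    have h9 : p • a + q • b = r • a + s • b := by rw [h7, h8, h3, h5]
    exact hxy h9
  apply le_antisymm
  · rw [Submodule.span_le]
    intro z hz
    rcases hz with rfl | rfl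
    · exact hxa
    · exact hya
  · rw [Submodule.span_le]
    intro z hz
    rcases hz with rfl | rfl
    · rw [SetLike.mem_coe, Submodule.mem_span_pair]
      refine ⟨s / (p * s - q * r), -q / (p * s - q * r), ?_⟩
      have h1 : (s / (p * s - q * r)) * p + (-q / (p * s - q * r)) * r = 1 := by
        rw [div_mul_eq_mul_div, div_mul_eq_mul_div, ← add_div, div_eq_one_iff_eq hdet]; ring
      have h2 : (s / (p * s - q * r)) * q + (-q / (p * s - q * r)) * s = 0 := by field_simp; ring
      calc _ = ((s / (p * s - q * r)) * p + (-q / (p * s - q * r)) * r) • z +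
            ((s / (p * s - q * r)) * q + (-q / (p * s - q * r)) * s) • b := by module
        _ = z := by rw [h1, h2]; simp
    · rw [SetLike.mem_coe, Submodule.mem_span_pair]
      refine ⟨-r / (p * s - q * r), p / (p * s - q * r), ?_⟩
      have h1 : (-r / (p * s - q * r)) * p + (p / (p * s - q * r)) * r = 0 := by field_simp; ring
      have h2 : (-r / (p * s - q * r)) * q + (p / (p * s - q * r)) * s = 1 := by
        rw [div_mul_eq_mul_div, div_mul_eq_mul_div, ← add_div, div_eq_one_iff_eq hdet]; ring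
      calc _ = ((-r / (p * s - q * r)) * p + (p / (p * s - q * r)) * r) • a +
            ((-r / (p * s - q * r)) * q + (p / (p * s - q * r)) * s) • z := by module
        _ = z := by rw [h1, h2]; simp

open Classical in
/-- The points of `X` on the line through `x` and `y`. -/
noncomputable def lineOn (X : Finset W) (x y : W) : Finset W :=
  X.filter (fun z => z ∈ Submodule.span ℝ {x, y})

theorem mem_lineOn {X : Finset W} {x y z : W} :
    z ∈ lineOn X x y ↔ z ∈ X ∧ z ∈ Submodule.span ℝ {x, y} := by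
  classical
  rw [lineOn, Finset.mem_filter]

theorem lineOn_eq {X : Finset W} (hX : PairInd X) {a b x y : W} (hxy : x ≠ y)
    (hx : x ∈ lineOn X a b) (hy : y ∈ lineOn X a b) : lineOn X x y = lineOn X a b := by
  have h := span_pair_eq hX (mem_lineOn.1 hx).1 (mem_lineOn.1 hy).1 hxy (mem_lineOn.1 hx).2
    (mem_lineOn.1 hy).2
  ext z
  rw [mem_lineOn, mem_lineOn, h]

/-- A line of the projective space lies in the kernel of a combination of three functionals. -/
theorem exists_combination (f₀ f₁ f₂ : W →ₗ[ℝ] ℝ) {x : W} (hx : f₀ x ≠ 0) (y : W) :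
    ∃ A B C : ℝ, ¬ (A = 0 ∧ B = 0 ∧ C = 0) ∧
      ∀ z ∈ Submodule.span ℝ {x, y}, A * f₀ z + B * f₁ z + C * f₂ z = 0 := by
  have hmain : ∀ A B C : ℝ, A * f₀ x + B * f₁ x + C * f₂ x = 0 →
      A * f₀ y + B * f₁ y + C * f₂ y = 0 →
      ∀ z ∈ Submodule.span ℝ {x, y}, A * f₀ z + B * f₁ z + C * f₂ z = 0 := by
    intro A B C h1 h2 z hz
    obtain ⟨p, q, rfl⟩ := Submodule.mem_span_pair.1 hz
    simp only [map_add, map_smul, smul_eq_mul]
    linear_combination p * h1 + q * h2
  by_cases ha : -(f₁ x) * f₀ y + f₀ x * f₁ y = 0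
  · refine ⟨-(f₁ x), f₀ x, 0, fun h => hx h.2.1, hmain _ _ _ (by ring) (by linarith)⟩
  · refine ⟨-(-(f₂ x) * f₀ y + f₀ x * f₂ y) * f₁ x + (-(f₁ x) * f₀ y + f₀ x * f₁ y) * f₂ x,
      (-(f₂ x) * f₀ y + f₀ x * f₂ y) * f₀ x, -(-(f₁ x) * f₀ y + f₀ x * f₁ y) * f₀ x, ?_,
      hmain _ _ _ (by ring) (by ring)⟩
    rintro ⟨_, _, h⟩
    rcases mul_eq_zero.1 h with h' | h'
    · exact ha (neg_eq_zero.1 h')
    · exact hx h'

/-- Many pairs are in the same cell on a rich line. -/
theorem sq_card_le_samecell {β : Type*} [DecidableEq β] (L : Finset W) (κ : W → β) {m : ℕ}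
    (hm : (L.image κ).card ≤ m) (hL : 2 * m ≤ L.card) :
    L.card ^ 2 ≤ 2 * m * (L.offDiag.filter (fun p => κ p.1 = κ p.2)).card := by
  have h1 : L.card = ∑ c ∈ L.image κ, (L.filter (fun x => κ x = c)).card :=
    Finset.card_eq_sum_card_image κ L
  have h2 : (L.offDiag.filter (fun p => κ p.1 = κ p.2)).card + L.card =
      ∑ c ∈ L.image κ, (L.filter (fun x => κ x = c)).card ^ 2 := by
    have h3 : (L.offDiag.filter (fun p => κ p.1 = κ p.2)).card =
        ∑ c ∈ L.image κ, ((L.filter (fun x => κ x = c)).offDiag).card := by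
      rw [Finset.card_eq_sum_card_fiberwise (f := fun p => κ p.1) (t := L.image κ)]
      · apply Finset.sum_congr rfl
        intro c _
        congr 1
        ext ⟨p, q⟩
        simp only [Finset.mem_filter, Finset.mem_offDiag]
        constructor
        · rintro ⟨⟨⟨h1, h2, h3⟩, h4⟩, h5⟩
          exact ⟨⟨h1, h5⟩, ⟨h2, h4.symm.trans h5⟩, h3⟩
        · rintro ⟨⟨h1, h5⟩, ⟨h2, h6⟩, h3⟩
          exact ⟨⟨⟨h1, h2, h3⟩, h5.trans h6.symm⟩, h5⟩
      · intro pq hpq
        simp only [Finset.coe_filter, Finset.mem_offDiag, Set.mem_ofPred_eq] at hpq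
        exact Finset.mem_coe.2 (Finset.mem_image_of_mem _ hpq.1.1)
    rw [h3]
    conv_lhs => rw [h1]
    rw [← Finset.sum_add_distrib]
    apply Finset.sum_congr rfl
    intro c _
    rw [Finset.offDiag_card, sq]
    have : (L.filter (fun x => κ x = c)).card ≤
        (L.filter (fun x => κ x = c)).card * (L.filter (fun x => κ x = c)).card :=
      Nat.le_mul_self _
    omega
  have h3 : L.card ^ 2 ≤ (L.image κ).card *
      ∑ c ∈ L.image κ, (L.filter (fun x => κ x = c)).card ^ 2 := by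
    conv_lhs => rw [h1]
    exact_mod_cast sq_sum_le_card_mul_sum_sq
  rw [← h2] at h3
  set sp := (L.offDiag.filter (fun p => κ p.1 = κ p.2)).card with hsp
  have h4 : L.card ^ 2 ≤ m * (sp + L.card) := h3.trans (Nat.mul_le_mul_right _ hm)
  have h5 : 2 * m * L.card ≤ L.card ^ 2 := by rw [sq]; exact Nat.mul_le_mul_right _ hL
  nlinarith

/-- Weak Dirac theorem with explicit constants. -/
theorem weak_dirac (X : Finset W) (f₀ f₁ f₂ : W →ₗ[ℝ] ℝ)
    (hf : ∀ A B C : ℝ, A • f₀ + B • f₁ + C • f₂ = 0 → A = 0 ∧ B = 0 ∧ C = 0)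
    (hX : PairInd X) (hN : 100 ≤ X.card)
    (hyp : ∀ g : W →ₗ[ℝ] ℝ, g ≠ 0 → 174764 * (X.filter (fun x => g x = 0)).card ≤ X.card) :
    ∃ x₁ ∈ X, ∃ X' ⊆ X, x₁ ∉ X' ∧ X.card ≤ 39366 * X'.card ∧
      ∀ y ∈ X', ∀ z ∈ X', y ≠ z → ∀ r s t : ℝ, r • x₁ + s • y + t • z = 0 →
        r = 0 ∧ s = 0 ∧ t = 0 := by
  classical
  set u : W → ℝ := fun x => f₁ x / f₀ x with hu
  set v : W → ℝ := fun x => f₂ x / f₀ x with hv
  set X₀ := X.filter (fun x => f₀ x ≠ 0) with hX₀
  obtain ⟨Λ, κ, hΛ1, hΛ2, hκ1, hκ2⟩ := exists_partition 8 X₀ u v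
  set Xs := X₀.filter (fun x => ∀ l ∈ Λ, l.1 + l.2.1 * u x + l.2.2 * v x ≠ 0) with hXs
  have hXs0 : ∀ x ∈ Xs, x ∈ X ∧ f₀ x ≠ 0 := fun x hx =>
    Finset.mem_filter.1 (Finset.mem_filter.1 hx).1
  have hXsX : Xs ⊆ X := fun x hx => (hXs0 x hx).1
  have hXsInd : PairInd Xs := fun x hx y hy => hX x (hXsX hx) y (hXsX hy)
  have hnl : numLines 8 = 43690 := rfl
  set N := X.card with hNdef
  -- few points are special
  have hspecial : 4 * (X \ Xs).card ≤ N := by
    have h1 : X \ Xs ⊆ X.filter (fun x => f₀ x = 0) ∪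
        Λ.biUnion (fun l => X.filter (fun x => (l.1 • f₀ + l.2.1 • f₁ + l.2.2 • f₂) x = 0)) := by
      intro x hx
      obtain ⟨hxX, hxs⟩ := Finset.mem_sdiff.1 hx
      rw [Finset.mem_union]
      by_cases h0 : f₀ x = 0
      · left; exact Finset.mem_filter.2 ⟨hxX, h0⟩
      · right
        rw [hXs, Finset.mem_filter] at hxs
        push Not at hxs
        obtain ⟨l, hl, hl0⟩ := hxs (Finset.mem_filter.2 ⟨hxX, h0⟩)
        rw [Finset.mem_biUnion]
        refine ⟨l, hl, Finset.mem_filter.2 ⟨hxX, ?_⟩⟩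
        simp only [LinearMap.add_apply, LinearMap.smul_apply, smul_eq_mul]
        simp only [hu, hv] at hl0
        field_simp at hl0
        linarith
    have h2 : f₀ ≠ 0 := by
      intro h
      have := hf 1 0 0 (by simp [h])
      exact one_ne_zero this.1
    have h3 := hyp f₀ h2
    have h4 : 174764 * (Λ.biUnion (fun l =>
        X.filter (fun x => (l.1 • f₀ + l.2.1 • f₁ + l.2.2 • f₂) x = 0))).card ≤ 43690 * N := by
      calc _ ≤ 174764 * ∑ l ∈ Λ,
            (X.filter (fun x => (l.1 • f₀ + l.2.1 • f₁ + l.2.2 • f₂) x = 0)).card :=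
            Nat.mul_le_mul_left _ Finset.card_biUnion_le
        _ = ∑ l ∈ Λ, 174764 *
            (X.filter (fun x => (l.1 • f₀ + l.2.1 • f₁ + l.2.2 • f₂) x = 0)).card := by
            rw [Finset.mul_sum]
        _ ≤ ∑ l ∈ Λ, N := by
            apply Finset.sum_le_sum
            intro l hl
            apply hyp
            intro h
            exact hΛ2 l hl (hf _ _ _ h)
        _ = Λ.card * N := by simp
        _ ≤ 43690 * N := by
            rw [hnl] at hΛ1
            exact Nat.mul_le_mul_right _ hΛ1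
    have h5 := (Finset.card_le_card h1).trans (Finset.card_union_le _ _)
    omega
  have hNs : 3 * N ≤ 4 * Xs.card := by
    have h1 := Finset.card_sdiff_add_card_eq_card hXsX
    omega
  -- the number of pairs in the same cell
  set SP := Xs.offDiag.filter (fun p => κ p.1 = κ p.2) with hSP
  have hSPcard : 65536 * SP.card ≤ N ^ 2 := by
    have h1 : SP.card ≤ ∑ x ∈ Xs, (Xs.filter (fun y => κ y = κ x)).card := by
      rw [hSP, Finset.card_eq_sum_card_fiberwise (f := fun p => p.1) (t := Xs)]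
      · apply Finset.sum_le_sum
        intro x _
        apply Finset.card_le_card_of_injOn (fun p => p.2)
        · intro p hp
          have hp' := Finset.mem_coe.1 hp
          rw [Finset.mem_filter, Finset.mem_filter, Finset.mem_offDiag] at hp'
          rw [Finset.mem_coe, Finset.mem_filter]
          exact ⟨hp'.1.1.2.1, by rw [← hp'.1.2, hp'.2]⟩
        · intro p hp p' hp' hpp
          have h2 := Finset.mem_filter.1 (Finset.mem_coe.1 hp)
          have h3 := Finset.mem_filter.1 (Finset.mem_coe.1 hp')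
          exact Prod.ext (h2.2.trans h3.2.symm) hpp
      · intro p hp
        exact (Finset.mem_offDiag.1 (Finset.mem_filter.1 hp).1).1
    have h2 : ∀ x ∈ Xs, 65536 * (Xs.filter (fun y => κ y = κ x)).card ≤ N := by
      intro x _
      have h3 := hκ1 (κ x)
      have h4 : Xs.filter (fun y => κ y = κ x) =
          X₀.filter (fun y => (∀ l ∈ Λ, l.1 + l.2.1 * u y + l.2.2 * v y ≠ 0) ∧ κ y = κ x) := by
        rw [hXs, Finset.filter_filter]
      rw [h4]
      have h5 : X₀.card ≤ N := Finset.card_le_card (Finset.filter_subset _ _)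
      have h6 : (4 : ℕ) ^ 8 = 65536 := by norm_num
      rw [h6] at h3
      exact h3.trans h5
    calc 65536 * SP.card ≤ 65536 * ∑ x ∈ Xs, (Xs.filter (fun y => κ y = κ x)).card :=
          Nat.mul_le_mul_left _ h1
      _ = ∑ x ∈ Xs, 65536 * (Xs.filter (fun y => κ y = κ x)).card := by rw [Finset.mul_sum]
      _ ≤ ∑ x ∈ Xs, N := Finset.sum_le_sum h2
      _ = Xs.card * N := by simp
      _ ≤ N ^ 2 := by
          rw [sq]
          exact Nat.mul_le_mul_right _ (Finset.card_le_card hXsX)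
  -- rich pairs
  set Rich := Xs.offDiag.filter (fun p => 13122 ≤ (lineOn Xs p.1 p.2).card) with hRich
  have hcells : ∀ x ∈ Xs, ∀ y ∈ Xs, ((lineOn Xs x y).image κ).card ≤ 6561 := by
    intro x hx y hy
    obtain ⟨A, B, C, hABC, hABC'⟩ := exists_combination f₀ f₁ f₂ (hXs0 x hx).2 y
    have h1 := hκ2 A B C hABC
    refine le_trans (Finset.card_le_card ?_) (h1.trans (by norm_num))
    apply Finset.image_subset_image
    intro z hz
    obtain ⟨hz1, hz2⟩ := mem_lineOn.1 hz
    have h2 := hABC' z hz2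
    have h3 := (hXs0 z hz1).2
    rw [Finset.mem_filter]
    refine ⟨(Finset.mem_filter.1 hz1).1, (Finset.mem_filter.1 hz1).2, ?_⟩
    simp only [hu, hv]
    field_simp
    linarith
  have hRichcard : Rich.card ≤ 13122 * SP.card := by
    -- group by lines
    set F : Finset (Finset W) := Rich.image (fun p => lineOn Xs p.1 p.2) with hF
    have hF' : ∀ L ∈ F, ∃ x ∈ Xs, ∃ y ∈ Xs, x ≠ y ∧ L = lineOn Xs x y ∧ 13122 ≤ L.card := by
      intro L hL
      obtain ⟨p, hp, rfl⟩ := Finset.mem_image.1 hL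
      obtain ⟨hp1, hp2⟩ := Finset.mem_filter.1 hp
      obtain ⟨h1, h2, h3⟩ := Finset.mem_offDiag.1 hp1
      exact ⟨p.1, h1, p.2, h2, h3, rfl, hp2⟩
    have h1 : Rich.card ≤ ∑ L ∈ F, L.card ^ 2 := by
      rw [Finset.card_eq_sum_card_image (fun p => lineOn Xs p.1 p.2) Rich]
      apply Finset.sum_le_sum
      intro L _
      rw [sq, ← Finset.card_product]
      apply Finset.card_le_card
      intro p hp
      obtain ⟨hp1, hp2⟩ := Finset.mem_filter.1 hp
      obtain ⟨h2, h3, _⟩ := Finset.mem_offDiag.1 (Finset.mem_filter.1 hp1).1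
      rw [Finset.mem_product, ← hp2, mem_lineOn, mem_lineOn]
      exact ⟨⟨h2, Submodule.subset_span (by simp)⟩, ⟨h3, Submodule.subset_span (by simp)⟩⟩
    have h2 : ∑ L ∈ F, (L.offDiag.filter (fun p => κ p.1 = κ p.2)).card ≤ SP.card := by
      rw [← Finset.card_biUnion]
      · apply Finset.card_le_card
        intro p hp
        obtain ⟨L, hL, hpL⟩ := Finset.mem_biUnion.1 hp
        obtain ⟨x, hx, y, hy, hxy, rfl, _⟩ := hF' L hL
        obtain ⟨hp1, hp2⟩ := Finset.mem_filter.1 hpL
        obtain ⟨h3, h4, h5⟩ := Finset.mem_offDiag.1 hp1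
        rw [hSP, Finset.mem_filter, Finset.mem_offDiag]
        exact ⟨⟨(mem_lineOn.1 h3).1, (mem_lineOn.1 h4).1, h5⟩, hp2⟩
      · intro L hL L' hL' hne
        rw [Function.onFun, Finset.disjoint_left]
        intro p hp hp'
        obtain ⟨x, hx, y, hy, hxy, rfl, _⟩ := hF' L hL
        obtain ⟨x', hx', y', hy', hxy', rfl, _⟩ := hF' L' hL'
        obtain ⟨h3, h4, h5⟩ := Finset.mem_offDiag.1 (Finset.mem_filter.1 hp).1
        obtain ⟨h6, h7, _⟩ := Finset.mem_offDiag.1 (Finset.mem_filter.1 hp').1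
        exact hne ((lineOn_eq hXsInd h5 h3 h4).symm.trans (lineOn_eq hXsInd h5 h6 h7))
    calc Rich.card ≤ ∑ L ∈ F, L.card ^ 2 := h1
      _ ≤ ∑ L ∈ F, 13122 * (L.offDiag.filter (fun p => κ p.1 = κ p.2)).card := by
          apply Finset.sum_le_sum
          intro L hL
          obtain ⟨x, hx, y, hy, hxy, rfl, h3⟩ := hF' L hL
          exact sq_card_le_samecell _ κ (m := 6561) (hcells x hx y hy) h3
      _ = 13122 * ∑ L ∈ F, (L.offDiag.filter (fun p => κ p.1 = κ p.2)).card := by
          rw [Finset.mul_sum]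
      _ ≤ 13122 * SP.card := Nat.mul_le_mul_left _ h2
  -- a point with many poor partners
  set Ns := Xs.card with hNsdef
  obtain ⟨x₁, hx₁, hx₁S⟩ : ∃ x₁ ∈ Xs, Ns ≤
      2 * ((Xs.erase x₁).filter (fun y => ¬ 13122 ≤ (lineOn Xs x₁ y).card)).card := by
    by_contra hcon
    push Not at hcon
    set Poor := Xs.offDiag.filter (fun p => ¬ 13122 ≤ (lineOn Xs p.1 p.2).card) with hPoor
    have h1 : Rich.card + Poor.card = Xs.offDiag.card := Finset.card_filter_add_card_filter_not _
    have h2 : Poor.card = ∑ x ∈ Xs,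
        ((Xs.erase x).filter (fun y => ¬ 13122 ≤ (lineOn Xs x y).card)).card := by
      rw [hPoor, Finset.card_eq_sum_card_fiberwise (f := fun p => p.1) (t := Xs)]
      · apply Finset.sum_congr rfl
        intro x hx
        apply Finset.card_bij (fun p _ => p.2)
        · intro p hp
          rw [Finset.mem_filter, Finset.mem_filter, Finset.mem_offDiag] at hp
          obtain ⟨⟨⟨h2, h3, h4⟩, h5⟩, h6⟩ := hp
          rw [Finset.mem_filter, Finset.mem_erase]
          subst h6
          exact ⟨⟨h4.symm, h3⟩, h5⟩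
        · intro p hp p' hp' hpp
          exact Prod.ext ((Finset.mem_filter.1 hp).2.trans (Finset.mem_filter.1 hp').2.symm) hpp
        · intro y hy
          rw [Finset.mem_filter, Finset.mem_erase] at hy
          refine ⟨(x, y), ?_, rfl⟩
          rw [Finset.mem_filter, Finset.mem_filter, Finset.mem_offDiag]
          exact ⟨⟨⟨hx, hy.1.2, hy.1.1.symm⟩, hy.2⟩, rfl⟩
      · intro p hp
        exact (Finset.mem_offDiag.1 (Finset.mem_filter.1 hp).1).1
    have h3 : 2 * Poor.card ≤ Ns * Ns := by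
      rw [h2, Finset.mul_sum]
      calc _ ≤ ∑ x ∈ Xs, Ns := Finset.sum_le_sum (fun x hx => by
            have := hcon x hx
            simp only [not_le] at this ⊢
            exact this.le)
        _ = Ns * Ns := by simp [hNsdef]
    rw [Finset.offDiag_card] at h1
    have h4 : 65536 * Rich.card ≤ 13122 * N ^ 2 := by
      calc 65536 * Rich.card ≤ 65536 * (13122 * SP.card) := Nat.mul_le_mul_left _ hRichcard
        _ = 13122 * (65536 * SP.card) := by ring
        _ ≤ 13122 * N ^ 2 := Nat.mul_le_mul_left _ hSPcard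
    have h5 : 9 * N ^ 2 ≤ 16 * (Ns * Ns) := by
      calc 9 * N ^ 2 = (3 * N) * (3 * N) := by ring
        _ ≤ (4 * Ns) * (4 * Ns) := Nat.mul_le_mul hNs hNs
        _ = 16 * (Ns * Ns) := by ring
    have h6 : Ns ≤ Ns * Ns := Nat.le_mul_self _
    have h7 : 75 * Ns ≤ Ns * Ns := Nat.mul_le_mul_right _ (by omega)
    have h8 : 0 < Ns * Ns := Nat.mul_pos (by omega) (by omega)
    rw [← hNsdef] at h1
    generalize Ns * Ns = Q at *
    generalize N ^ 2 = R at *
    omega
  set S := (Xs.erase x₁).filter (fun y => ¬ 13122 ≤ (lineOn Xs x₁ y).card) with hS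
  have hSmem : ∀ y ∈ S, y ∈ Xs ∧ y ≠ x₁ ∧ (lineOn Xs x₁ y).card < 13122 := by
    intro y hy
    rw [hS, Finset.mem_filter, Finset.mem_erase, not_le] at hy
    exact ⟨hy.1.2, hy.1.1, hy.2⟩
  obtain ⟨X', hX'S, hX'inj, hX'im⟩ := Finset.exists_subset_injOn_image_eq_of_surjOn
    (f := fun y => lineOn Xs x₁ y) (S : Set W) (S.image (fun y => lineOn Xs x₁ y)) (by
      intro L hL
      obtain ⟨y, hy, rfl⟩ := Finset.mem_image.1 (Finset.mem_coe.1 hL)
      exact ⟨y, hy, rfl⟩)
  have hX'S' : X' ⊆ S := Finset.coe_subset.1 hX'S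
  have hcard : S.card ≤ 13122 * X'.card := by
    have h1 : X'.card = (S.image (fun y => lineOn Xs x₁ y)).card := by
      rw [← hX'im, Finset.card_image_of_injOn hX'inj]
    rw [h1, Finset.card_eq_sum_card_image (fun y => lineOn Xs x₁ y) S, mul_comm,
      ← smul_eq_mul, ← Finset.sum_const]
    apply Finset.sum_le_sum
    intro L hL
    obtain ⟨y, hy, rfl⟩ := Finset.mem_image.1 hL
    refine le_trans (Finset.card_le_card ?_) (hSmem y hy).2.2.le
    intro z hz
    obtain ⟨h2, h3⟩ := Finset.mem_filter.1 hz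
    rw [← h3, mem_lineOn]
    exact ⟨(hSmem z h2).1, Submodule.subset_span (by simp)⟩
  refine ⟨x₁, hXsX hx₁, X', ?_, ?_, ?_, ?_⟩
  · intro y hy
    exact hXsX (hSmem y (hX'S' hy)).1
  · intro h
    exact (hSmem x₁ (hX'S' h)).2.1 rfl
  · omega
  · intro y hy z hz hyz r s t hrst
    obtain ⟨hy1, hy2, _⟩ := hSmem y (hX'S' hy)
    obtain ⟨hz1, hz2, _⟩ := hSmem z (hX'S' hz)
    have ht : t = 0 := by
      by_contra ht
      have h1 : z ∈ Submodule.span ℝ {x₁, y} := by
        rw [Submodule.mem_span_pair]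
        refine ⟨-r / t, -s / t, ?_⟩
        have h2 : t • z = -(r • x₁ + s • y) := by
          rw [eq_neg_iff_add_eq_zero, add_comm]; exact hrst
        have h3 : z = t⁻¹ • (t • z) := by rw [smul_smul, inv_mul_cancel₀ ht, one_smul]
        rw [h3, h2]
        rw [div_eq_mul_inv, div_eq_mul_inv]
        module
      have h4 : lineOn Xs x₁ z = lineOn Xs x₁ y := by
        apply lineOn_eq hXsInd hz2.symm
        · exact mem_lineOn.2 ⟨hx₁, Submodule.subset_span (by simp)⟩
        · exact mem_lineOn.2 ⟨hz1, h1⟩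
      exact hyz (hX'inj hy hz h4.symm)
    rw [ht, zero_smul, add_zero] at hrst
    obtain ⟨h1, h2⟩ := hX x₁ (hXsX hx₁) y (hXsX hy1) hy2.symm r s hrst
    exact ⟨h1, h2, ht⟩

end Pool.Agent.Lib.MP_b430f2_co
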