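import Mathlib
import Pool.Agent.Lib.MP_b430f2_co.WeakDirac
import Pool.Agent.Lib.MP_b430f2_co.Config

/-! Existence of large configurations. -/

namespace Pool.Agent.Lib.MP_b430f2_co

open Finset

/-- The trivial configuration given by two independent vectors. -/
theorem LConfig.pair {W : Type*} [AddCommGroup W] [Module ℝ W] [DecidableEq W] {X : Finset W}
    (hX : PairInd X) {y z : W} (hy : y ∈ X) (hz : z ∈ X) (hyz : y ≠ z) :
    LConfig X (fun i : Fin 0 => i.elim0) {y, z} := by
  refine ⟨fun i => i.elim0, fun i => i.elim0, ?_, ?_, ?_⟩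
  · intro w hw
    rw [Finset.mem_insert, Finset.mem_singleton] at hw
    rcases hw with rfl | rfl <;> assumption
  · intro a ha b hb hab s t hst
    have h0 : Set.range (fun i : Fin 0 => (i.elim0 : W)) = ∅ := Set.range_eq_empty _
    rw [h0, Submodule.span_empty, Submodule.mem_bot] at hst
    rw [Finset.mem_insert, Finset.mem_singleton] at ha hb
    refine hX a ?_ b ?_ hab s t hst
    · rcases ha with rfl | rfl <;> assumption
    · rcases hb with rfl | rfl <;> assumption
  · intro a ha b hb hab w hw
    rw [Finset.mem_insert, Finset.mem_singleton] at ha hb hw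
    have h1 : w = a ∨ w = b := by
      rcases ha with rfl | rfl <;> rcases hb with rfl | rfl <;> rcases hw with rfl | rfl <;>
        simp_all
    rcases h1 with rfl | rfl
    · exact ⟨1, 0, by simp⟩
    · exact ⟨0, 1, by simp⟩

/-- In dimension at most two the whole set is a configuration. -/
theorem LConfig.of_finrank_le_two {W : Type*} [AddCommGroup W] [Module ℝ W]
    [FiniteDimensional ℝ W] {X : Finset W} (hX : PairInd X)
    (hW : Module.finrank ℝ W ≤ 2) : LConfig X (fun i : Fin 0 => i.elim0) X := by
  refine ⟨fun i => i.elim0, fun i => i.elim0, subset_rfl, ?_, ?_⟩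
  · intro a ha b hb hab s t hst
    have h0 : Set.range (fun i : Fin 0 => (i.elim0 : W)) = ∅ := Set.range_eq_empty _
    rw [h0, Submodule.span_empty, Submodule.mem_bot] at hst
    exact hX a ha b hb hab s t hst
  · intro a ha b hb hab w hw
    have hli : LinearIndependent ℝ ![a, b] := LinearIndependent.pair_iff.2 (hX a ha b hb hab)
    have h1 := hli.fintype_card_le_finrank
    rw [Fintype.card_fin] at h1
    have h2 := hli.span_eq_top_of_card_eq_finrank' (by rw [Fintype.card_fin]; omega)
    have h3 : w ∈ Submodule.span ℝ (Set.range ![a, b]) := by rw [h2]; trivial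
    rw [Matrix.range_cons, Matrix.range_cons, Matrix.range_empty, Set.union_empty] at h3
    obtain ⟨s, t, hst⟩ := Submodule.mem_span_pair.1 h3
    exact ⟨s, t, by rw [hst]; simp⟩

/-- Configurations are preserved by injective linear maps. -/
theorem LConfig.map {V W : Type*} [AddCommGroup V] [Module ℝ V] [AddCommGroup W] [Module ℝ W]
    [DecidableEq W] {X : Finset V} {e : ℕ} {x : Fin e → V} {Y : Finset V} (h : LConfig X x Y)
    (φ : V →ₗ[ℝ] W) (hφ : Function.Injective φ) {X' : Finset W} (hX' : X.image φ ⊆ X') :
    LConfig X' (φ ∘ x) (Y.image φ) := by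
  have hspan : Submodule.span ℝ (Set.range (φ ∘ x)) =
      (Submodule.span ℝ (Set.range x)).map φ := by
    rw [Submodule.map_span, Set.range_comp]
  refine ⟨hφ.comp h.inj, fun i => hX' (Finset.mem_image_of_mem _ (h.mem i)),
    (Finset.image_subset_image h.sub).trans hX', ?_, ?_⟩
  · intro a ha b hb hab s t hst
    obtain ⟨y, hy, rfl⟩ := Finset.mem_image.1 ha
    obtain ⟨z, hz, rfl⟩ := Finset.mem_image.1 hb
    rw [hspan, ← map_smul, ← map_smul, ← map_add] at hst
    obtain ⟨w, hw, hw'⟩ := Submodule.mem_map.1 hst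
    rw [hφ hw'] at hw
    exact h.ind y hy z hz (fun h => hab (by rw [h])) s t hw
  · intro a ha b hb hab w hw
    obtain ⟨y, hy, rfl⟩ := Finset.mem_image.1 ha
    obtain ⟨z, hz, rfl⟩ := Finset.mem_image.1 hb
    obtain ⟨w', hw', rfl⟩ := Finset.mem_image.1 hw
    obtain ⟨s, t, hst⟩ := h.gen y hy z hz (fun h => hab (by rw [h])) w' hw'
    refine ⟨s, t, ?_⟩
    rw [hspan, ← map_smul, ← map_smul, ← map_add, ← map_sub]
    exact Submodule.mem_map_of_mem hst

/-- Lifting a configuration from the quotient by a vector. -/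
theorem LConfig.lift {W : Type*} [AddCommGroup W] [Module ℝ W] [DecidableEq W] {X : Finset W}
    {x₁ : W} (hx₁ : x₁ ∈ X) {X' : Finset W} (hX' : X' ⊆ X) (hx₁' : x₁ ∉ X')
    [DecidableEq (W ⧸ (Submodule.span ℝ {x₁}))]
    (hinj : Set.InjOn (Submodule.mkQ (Submodule.span ℝ {x₁})) X') {e : ℕ}
    {x : Fin e → W ⧸ (Submodule.span ℝ {x₁})} {Y : Finset (W ⧸ (Submodule.span ℝ {x₁}))}
    (h : LConfig (X'.image (Submodule.mkQ (Submodule.span ℝ {x₁}))) x Y) :
    ∃ (xx : Fin (e + 1) → W) (YY : Finset W), LConfig X xx YY ∧ YY.card = Y.card := by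
  set π := Submodule.mkQ (Submodule.span ℝ {x₁}) with hπ
  have hx : ∀ i, ∃ w ∈ X', π w = x i := fun i => Finset.mem_image.1 (h.mem i)
  choose w hwX' hw using hx
  have hπx₁ : π x₁ = 0 := by
    rw [hπ, Submodule.mkQ_apply, Submodule.Quotient.mk_eq_zero]
    exact Submodule.mem_span_singleton_self x₁
  have hmap : (Submodule.span ℝ (Set.range (Fin.cons x₁ w : Fin (e + 1) → W))).map π =
      Submodule.span ℝ (Set.range x) := by
    rw [Submodule.map_span, Fin.range_cons, Set.image_insert_eq, hπx₁, Submodule.span_insert_zero]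
    congr 1
    rw [← Set.range_comp]
    congr 1
    funext i
    exact hw i
  refine ⟨Fin.cons x₁ w, X'.filter (fun y => π y ∈ Y), ⟨?_, ?_, ?_, ?_, ?_⟩, ?_⟩
  · rw [Fin.cons_injective_iff]
    refine ⟨?_, ?_⟩
    · rintro ⟨i, hi⟩
      exact hx₁' (hi ▸ hwX' i)
    · intro i j hij
      apply h.inj
      rw [← hw i, ← hw j, hij]
  · intro i
    refine Fin.cases ?_ ?_ i
    · exact hx₁
    · intro i
      exact hX' (hwX' i)
  · exact (Finset.filter_subset _ _).trans hX'
  · intro y hy z hz hyz s t hst
    obtain ⟨hy1, hy2⟩ := Finset.mem_filter.1 hy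
    obtain ⟨hz1, hz2⟩ := Finset.mem_filter.1 hz
    have h1 : π (s • y + t • z) ∈ Submodule.span ℝ (Set.range x) := by
      rw [← hmap]
      exact Submodule.mem_map_of_mem hst
    rw [map_add, map_smul, map_smul] at h1
    exact h.ind _ hy2 _ hz2 (fun h2 => hyz (hinj hy1 hz1 h2)) s t h1
  · intro y hy z hz hyz u hu
    obtain ⟨hy1, hy2⟩ := Finset.mem_filter.1 hy
    obtain ⟨hz1, hz2⟩ := Finset.mem_filter.1 hz
    obtain ⟨hu1, hu2⟩ := Finset.mem_filter.1 hu
    obtain ⟨s, t, hst⟩ := h.gen _ hy2 _ hz2 (fun h2 => hyz (hinj hy1 hz1 h2)) _ hu2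
    refine ⟨s, t, ?_⟩
    rw [← map_smul, ← map_smul, ← map_add, ← map_sub, ← hmap] at hst
    obtain ⟨n, hn, hn'⟩ := Submodule.mem_map.1 hst
    have h2 : (u - (s • y + t • z)) - n ∈ Submodule.span ℝ {x₁} := by
      rw [← Submodule.Quotient.mk_eq_zero, ← Submodule.mkQ_apply, map_sub, ← hπ, hn', sub_self]
    have h3 : (u - (s • y + t • z)) - n ∈
        Submodule.span ℝ (Set.range (Fin.cons x₁ w : Fin (e + 1) → W)) := by
      refine Submodule.span_mono ?_ h2
      rw [Fin.range_cons]
      intro a ha
      exact Or.inl ha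
    have h4 := Submodule.add_mem _ h3 hn
    rwa [sub_add_cancel] at h4
  · rw [← Finset.card_image_of_injOn (s := X'.filter (fun y => π y ∈ Y)) (f := π)]
    · congr 1
      ext q
      rw [Finset.mem_image]
      constructor
      · rintro ⟨y, hy, rfl⟩
        exact (Finset.mem_filter.1 hy).2
      · intro hq
        obtain ⟨y, hy, rfl⟩ := Finset.mem_image.1 (h.sub hq)
        exact ⟨y, Finset.mem_filter.2 ⟨hy, hq⟩, rfl⟩
    · exact hinj.mono (fun y hy => (Finset.mem_filter.1 hy).1)

/-- Every finite set of pairwise independent vectors in dimension `D` contains a configuration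
whose large part contains a positive proportion of the vectors. -/
theorem exists_config (D : ℕ) : ∀ (W : Type) [AddCommGroup W] [Module ℝ W]
    [FiniteDimensional ℝ W] [DecidableEq W] (X : Finset W), Module.finrank ℝ W ≤ D →
    PairInd X → 2 ≤ X.card →
    ∃ (e : ℕ) (x : Fin e → W) (Y : Finset W), e + 2 ≤ D ∧ LConfig X x Y ∧
      X.card ≤ 349528 ^ D * Y.card := by
  induction D with
  | zero =>
    intro W _ _ _ _ X hW hX hcard
    exfalso
    obtain ⟨a, ha, b, hb, hab⟩ := Finset.one_lt_card.1 hcard
    have hli : LinearIndependent ℝ ![a, b] := LinearIndependent.pair_iff.2 (hX a ha b hb hab)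
    have h1 := hli.fintype_card_le_finrank
    rw [Fintype.card_fin] at h1
    omega
  | succ D ih =>
    intro W _ _ _ _ X hW hX hcard
    classical
    obtain ⟨a, ha, b, hb, hab⟩ := Finset.one_lt_card.1 hcard
    have hli : LinearIndependent ℝ ![a, b] := LinearIndependent.pair_iff.2 (hX a ha b hb hab)
    have hrank2 := hli.fintype_card_le_finrank
    rw [Fintype.card_fin] at hrank2
    have hpow : 1 ≤ 349528 ^ D := Nat.one_le_pow _ _ (by norm_num)
    have hpow' : 349528 ^ (D + 1) = 349528 * 349528 ^ D := by rw [pow_succ, mul_comm]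
    -- small sets
    rcases le_or_gt X.card 349528 with hsmall | hlarge
    · refine ⟨0, _, {a, b}, by omega, LConfig.pair hX ha hb hab, ?_⟩
      rw [Finset.card_pair hab, hpow']
      nlinarith
    rcases le_or_gt (Module.finrank ℝ W) 2 with hr2 | hr3
    · refine ⟨0, _, X, by omega, LConfig.of_finrank_le_two hX hr2, ?_⟩
      calc X.card = 1 * X.card := (one_mul _).symm
        _ ≤ 349528 ^ (D + 1) * X.card := Nat.mul_le_mul_right _ (Nat.one_le_pow _ _ (by norm_num))
    by_cases hg : ∃ g : W →ₗ[ℝ] ℝ, g ≠ 0 ∧ X.card < 174764 * (X.filter (fun x => g x = 0)).card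
    · -- many vectors in a hyperplane
      obtain ⟨g, hg0, hgX⟩ := hg
      set K := LinearMap.ker g with hK
      have hKrank : Module.finrank ℝ K ≤ D := by
        have h1 := LinearMap.finrank_range_add_finrank_ker g
        rw [← hK] at h1
        have h2 : 0 < Module.finrank ℝ (LinearMap.range g) := by
          rw [Module.finrank_pos_iff_exists_ne_zero]
          obtain ⟨w, hw⟩ : ∃ w, g w ≠ 0 := by
            by_contra hcon
            push Not at hcon
            exact hg0 (LinearMap.ext hcon)
          exact ⟨⟨g w, w, rfl⟩, fun h => hw (congrArg Subtype.val h)⟩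
        omega
      set XK : Finset K := X.subtype (fun x => x ∈ K) with hXK
      have hXKcard : XK.card = (X.filter (fun x => g x = 0)).card := by
        rw [hXK, Finset.card_subtype]
        congr 1
      have hXKind : PairInd XK := by
        intro x hx y hy hxy s t hst
        rw [hXK, Finset.mem_subtype] at hx hy
        apply hX x hx y hy (fun h => hxy (Subtype.ext h)) s t
        have := congrArg Subtype.val hst
        simpa using this
      obtain ⟨e, x, Y, he, hconf, hYcard⟩ := ih K XK hKrank hXKind (by omega)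
      refine ⟨e, K.subtype ∘ x, Y.image K.subtype, by omega,
        hconf.map K.subtype K.injective_subtype ?_, ?_⟩
      · intro w hw
        obtain ⟨y, hy, rfl⟩ := Finset.mem_image.1 hw
        rw [hXK, Finset.mem_subtype] at hy
        exact hy
      · rw [Finset.card_image_of_injective _ K.injective_subtype]
        calc X.card ≤ 174764 * XK.card := by rw [hXKcard]; exact hgX.le
          _ ≤ 174764 * (349528 ^ D * Y.card) := Nat.mul_le_mul_left _ hYcard
          _ ≤ 349528 * (349528 ^ D * Y.card) := Nat.mul_le_mul_right _ (by norm_num)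
          _ = 349528 ^ (D + 1) * Y.card := by rw [hpow']; ring
    · push Not at hg
      -- three independent functionals
      set bas := Module.finBasis ℝ W with hbas
      set i0 : Fin (Module.finrank ℝ W) := ⟨0, by omega⟩ with hi0
      set i1 : Fin (Module.finrank ℝ W) := ⟨1, by omega⟩ with hi1
      set i2 : Fin (Module.finrank ℝ W) := ⟨2, by omega⟩ with hi2
      obtain ⟨x₁, hx₁, X', hX'X, hx₁X', hX'card, hX'ind⟩ := weak_dirac X (bas.coord i0)
        (bas.coord i1) (bas.coord i2) (by
          intro A B C hABC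
          have h01 : i0 ≠ i1 := by simp [hi0, hi1]
          have h02 : i0 ≠ i2 := by simp [hi0, hi2]
          have h12 : i1 ≠ i2 := by simp [hi1, hi2]
          have h0 := LinearMap.congr_fun hABC (bas i0)
          have h1 := LinearMap.congr_fun hABC (bas i1)
          have h2 := LinearMap.congr_fun hABC (bas i2)
          simp only [LinearMap.add_apply, LinearMap.smul_apply, Module.Basis.coord_apply,
            Module.Basis.repr_self, LinearMap.zero_apply, smul_eq_mul, Finsupp.single_apply,
            h01, h01.symm, h02, h02.symm, h12, h12.symm, if_true, if_false] at h0 h1 h2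
          refine ⟨by linarith, by linarith, by linarith⟩) hX (by omega) hg
      have hX'2 : 2 ≤ X'.card := by omega
      have hx₁0 : x₁ ≠ 0 := by
        obtain ⟨y, hy, z, hz, hyz⟩ := Finset.one_lt_card.1 hX'2
        intro h0
        have := hX'ind y hy z hz hyz 1 0 0 (by rw [h0]; simp)
        exact one_ne_zero this.1
      set π := Submodule.mkQ (Submodule.span ℝ {x₁}) with hπ
      have hker : ∀ w, π w = 0 → ∃ r : ℝ, w = r • x₁ := by
        intro w hw
        rw [hπ, Submodule.mkQ_apply, Submodule.Quotient.mk_eq_zero] at hw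
        obtain ⟨r, hr⟩ := Submodule.mem_span_singleton.1 hw
        exact ⟨r, hr.symm⟩
      have hinj : Set.InjOn π X' := by
        intro y hy z hz hyz
        by_contra hne
        obtain ⟨r, hr⟩ := hker (y - z) (by rw [map_sub, hyz, sub_self])
        have := hX'ind y hy z hz hne (-r) 1 (-1) (by
          have : (-r) • x₁ + (1 : ℝ) • y + (-1 : ℝ) • z = (y - z) - r • x₁ := by module
          rw [this, hr, sub_self])
        exact one_ne_zero this.2.1
      have hQrank : Module.finrank ℝ (W ⧸ (Submodule.span ℝ {x₁})) ≤ D := by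
        have h1 := Submodule.finrank_quotient_add_finrank (Submodule.span ℝ {x₁})
        have h2 : Module.finrank ℝ (Submodule.span ℝ {x₁}) = 1 := finrank_span_singleton hx₁0
        omega
      have hXQind : PairInd (X'.image π) := by
        intro p hp q hq hpq s t hst
        obtain ⟨y, hy, rfl⟩ := Finset.mem_image.1 hp
        obtain ⟨z, hz, rfl⟩ := Finset.mem_image.1 hq
        obtain ⟨r, hr⟩ := hker (s • y + t • z) (by rw [map_add, map_smul, map_smul, hst])
        have := hX'ind y hy z hz (fun h => hpq (by rw [h])) (-r) s t (by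
          have : (-r) • x₁ + s • y + t • z = (s • y + t • z) - r • x₁ := by module
          rw [this, hr, sub_self])
        exact this.2
      have hXQcard : (X'.image π).card = X'.card := Finset.card_image_of_injOn hinj
      obtain ⟨e, x, Y, he, hconf, hYcard⟩ := ih (W ⧸ (Submodule.span ℝ {x₁})) (X'.image π) hQrank
        hXQind (by omega)
      obtain ⟨xx, YY, hconf', hYYcard⟩ := hconf.lift hx₁ hX'X hx₁X' hinj
      refine ⟨e + 1, xx, YY, by omega, hconf', ?_⟩
      rw [hYYcard]
      calc X.card ≤ 39366 * X'.card := hX'card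
        _ ≤ 39366 * (349528 ^ D * Y.card) := by rw [← hXQcard]; exact Nat.mul_le_mul_left _ hYcard
        _ ≤ 349528 * (349528 ^ D * Y.card) := Nat.mul_le_mul_right _ (by norm_num)
        _ = 349528 ^ (D + 1) * Y.card := by rw [hpow']; ring

end Pool.Agent.Lib.MP_b430f2_co
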