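import Mathlib
import Pool.Agent.Lib.MP_b430f2_co.Exists
import Pool.Agent.Lib.MP_b430f2_co.Classes

/-! The lower bound `n^(k-d)` for the number of affine classes. -/

namespace Pool.Agent.Lib.MP_b430f2_co

open Finset

variable {d : ℕ}

theorem pairInd_lift (P : Finset (Fin d → ℝ)) : PairInd (P.image lift) := by
  intro x hx y hy hxy s t hst
  obtain ⟨v, _, rfl⟩ := Finset.mem_image.1 hx
  obtain ⟨w, _, rfl⟩ := Finset.mem_image.1 hy
  have h1 : s + t = 0 := by
    have := congrArg Prod.snd hst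
    simpa [lift] using this
  have h2 : s • v + t • w = 0 := by
    have := congrArg Prod.fst hst
    simpa [lift] using this
  have h3 : t = -s := by linarith
  have h4 : s • (v - w) = 0 := by
    rw [h3] at h2
    rw [← h2]; module
  rcases smul_eq_zero.1 h4 with h | h
  · exact ⟨h, by rw [h3, h, neg_zero]⟩
  · exact absurd (by rw [sub_eq_zero.1 h]) hxy

theorem numClasses_pos {k : ℕ} {P : Finset (Fin d → ℝ)} (h : k ≤ P.card) :
    1 ≤ numClasses k P := by
  rw [numClasses_eq]
  obtain ⟨A, hA, hAk⟩ := Finset.exists_subset_card_eq h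
  exact (Set.ncard_pos (classSet_finite k P)).2 ⟨affClass A, A, hA, hAk, rfl⟩

theorem lower_nat {k : ℕ} (hk : d + 3 ≤ k) (P : Finset (Fin d → ℝ))
    (hP : k ≤ P.card) :
    P.card ^ (k - d) ≤
      ((2 * k * 349528 ^ (d + 1)) ^ (k - d) * (4 ^ k * k ^ k * 4624)) * numClasses k P := by
  classical
  have hcard : (P.image lift).card = P.card := Finset.card_image_of_injective _ lift_injective
  have hfr : Module.finrank ℝ ((Fin d → ℝ) × ℝ) ≤ d + 1 := by simp
  obtain ⟨e, x, Y, he, hconf, hY⟩ := exists_config (d + 1) ((Fin d → ℝ) × ℝ) (P.image lift) hfr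
    (pairInd_lift P) (by omega)
  rw [hcard] at hY
  have hC1 : 1 ≤ 349528 ^ (d + 1) := Nat.one_le_pow _ _ (by norm_num)
  generalize 349528 ^ (d + 1) = C at hY hC1 ⊢
  set j := k - e with hj
  have hej : e + j = k := by omega
  have hpos : 1 ≤ numClasses k P := numClasses_pos hP
  have h4k : 1 ≤ 4 ^ k * k ^ k * 4624 := by
    have hk0 : 0 < k := by omega
    have : 0 < 4 ^ k * k ^ k * 4624 := by positivity
    exact this
  rcases le_or_gt (2 * j) (Y.card - 1) with hm | hm
  · -- the main case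
    set m := Y.card - 1 with hmdef
    have hYm : Y.card ≤ 2 * m := by omega
    obtain ⟨Z, ξ, 𝓕, hZm, hrich, hb0⟩ := hconf.numClasses_bound (by omega) (j := j) (by omega)
    have hen := hrich.energy (j := j) (by omega)
    rw [hZm] at hen
    have hb := hb0.trans (Nat.mul_le_mul_left _ hen)
    rw [hej, ← hmdef] at hb
    have h1 : m ^ j ≤ 2 ^ j * m.descFactorial j := by
      calc m ^ j ≤ (2 * (m + 1 - j)) ^ j := Nat.pow_le_pow_left (by omega) j
        _ = 2 ^ j * (m + 1 - j) ^ j := by rw [mul_pow]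
        _ ≤ 2 ^ j * m.descFactorial j := Nat.mul_le_mul_left _ (Nat.pow_sub_le_descFactorial m j)
    have h2 : m ^ (j + 1) * m ^ (j - 1) ≤ m ^ (j + 1) * (4 ^ k * k ^ k * 4624 * numClasses k P) := by
      calc m ^ (j + 1) * m ^ (j - 1) = (m ^ j) ^ 2 := by
            rw [← pow_add, ← pow_mul]; congr 1; omega
        _ ≤ (2 ^ j * m.descFactorial j) ^ 2 := Nat.pow_le_pow_left h1 2
        _ = 4 ^ j * (m.descFactorial j) ^ 2 := by
            rw [mul_pow, ← pow_mul, mul_comm j 2, pow_mul]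
            norm_num
        _ ≤ 4 ^ k * (numClasses k P * k ^ k * (4624 * m ^ (j + 1))) := by
            apply Nat.mul_le_mul _ hb
            exact Nat.pow_le_pow_right (by norm_num) (by omega)
        _ = _ := by ring
    have hmpos : 0 < m := by omega
    have h3 : m ^ (j - 1) ≤ 4 ^ k * k ^ k * 4624 * numClasses k P :=
      Nat.le_of_mul_le_mul_left h2 (by positivity)
    have h4 : P.card ≤ 2 * k * C * m := by
      calc P.card ≤ C * Y.card := hY
        _ ≤ C * (2 * m) := Nat.mul_le_mul_left _ hYm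
        _ = 2 * C * m * 1 := by ring
        _ ≤ 2 * C * m * k := Nat.mul_le_mul_left _ (by omega)
        _ = 2 * k * C * m := by ring
    calc P.card ^ (k - d) ≤ (2 * k * C * m) ^ (k - d) := Nat.pow_le_pow_left h4 _
      _ = (2 * k * C) ^ (k - d) * m ^ (k - d) := by rw [mul_pow]
      _ ≤ (2 * k * C) ^ (k - d) * m ^ (j - 1) := by
          apply Nat.mul_le_mul_left
          exact Nat.pow_le_pow_right hmpos (by omega)
      _ ≤ (2 * k * C) ^ (k - d) * (4 ^ k * k ^ k * 4624 * numClasses k P) :=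
          Nat.mul_le_mul_left _ h3
      _ = _ := by ring
  · have h1 : P.card ≤ 2 * k * C := by
      calc P.card ≤ C * Y.card := hY
        _ ≤ C * (2 * k) := Nat.mul_le_mul_left _ (by omega)
        _ = 2 * k * C := by ring
    calc P.card ^ (k - d) ≤ (2 * k * C) ^ (k - d) := Nat.pow_le_pow_left h1 _
      _ = (2 * k * C) ^ (k - d) * 1 * 1 := by ring
      _ ≤ (2 * k * C) ^ (k - d) * (4 ^ k * k ^ k * 4624) * numClasses k P :=
          Nat.mul_le_mul (Nat.mul_le_mul_left _ h4k) hpos

theorem lower_log {k : ℕ} (hk : d + 2 ≤ k) (hd : 1 ≤ d) (P : Finset (Fin d → ℝ))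
    (hP : k ≤ P.card) :
    (P.card : ℝ) ^ (k - d) ≤
      (((2 * k * 349528 ^ (d + 1)) ^ (k - d) * (4 ^ k * k ^ k * 3468) : ℕ) : ℝ) *
        (1 + Real.log P.card) * numClasses k P := by
  classical
  have hcard : (P.image lift).card = P.card := Finset.card_image_of_injective _ lift_injective
  have hfr : Module.finrank ℝ ((Fin d → ℝ) × ℝ) ≤ d + 1 := by simp
  obtain ⟨e, x, Y, he, hconf, hY⟩ := exists_config (d + 1) ((Fin d → ℝ) × ℝ) (P.image lift) hfr
    (pairInd_lift P) (by omega)
  rw [hcard] at hY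
  have hC1 : 1 ≤ 349528 ^ (d + 1) := Nat.one_le_pow _ _ (by norm_num)
  generalize 349528 ^ (d + 1) = C at hY hC1 ⊢
  set j := k - e with hj
  have hej : e + j = k := by omega
  have hk0 : 0 < k := by omega
  have hpos : 1 ≤ numClasses k P := numClasses_pos hP
  have hposR : (1 : ℝ) ≤ numClasses k P := by exact_mod_cast hpos
  have hn1 : (1 : ℝ) ≤ P.card := by
    have : 1 ≤ P.card := by omega
    exact_mod_cast this
  have hlog : 0 ≤ Real.log P.card := Real.log_nonneg hn1
  have h4k : (1 : ℝ) ≤ ((4 ^ k * k ^ k * 3468 : ℕ) : ℝ) := by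
    have : 0 < 4 ^ k * k ^ k * 3468 := by positivity
    exact_mod_cast this
  have hkR : (1 : ℝ) ≤ k := by exact_mod_cast hk0
  have hCR : (1 : ℝ) ≤ C := by exact_mod_cast hC1
  have hYcard : Y.card ≤ P.card := by
    rw [← hcard]; exact Finset.card_le_card hconf.sub
  rcases le_or_gt (2 * j) (Y.card - 1) with hm | hm
  · -- the main case
    set m := Y.card - 1 with hmdef
    have hYm : Y.card ≤ 2 * m := by omega
    obtain ⟨Z, ξ, 𝓕, hZm, hrich, hb0⟩ := hconf.numClasses_bound (by omega) (j := j) (by omega)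
    have hen := hrich.energy_log (j := j) (by omega)
    rw [hZm] at hen
    rw [hej, ← hmdef] at hb0
    rw [← hmdef] at hen
    have hmpos : 0 < m := by omega
    have hmR : (1 : ℝ) ≤ m := by exact_mod_cast hmpos
    have hmn : (m : ℝ) ≤ P.card := by
      have : m ≤ P.card := by omega
      exact_mod_cast this
    have hlogm : 1 + Real.log m ≤ 1 + Real.log P.card := by
      have := Real.log_le_log (by linarith) hmn
      linarith
    have h1 : m ^ j ≤ 2 ^ j * m.descFactorial j := by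
      calc m ^ j ≤ (2 * (m + 1 - j)) ^ j := Nat.pow_le_pow_left (by omega) j
        _ = 2 ^ j * (m + 1 - j) ^ j := by rw [mul_pow]
        _ ≤ 2 ^ j * m.descFactorial j := Nat.mul_le_mul_left _ (Nat.pow_sub_le_descFactorial m j)
    have h2 : m ^ (j + 1) * m ^ (j - 1) ≤ 4 ^ k * (numClasses k P * k ^ k * ∑ G ∈ 𝓕, G.card ^ j) := by
      calc m ^ (j + 1) * m ^ (j - 1) = (m ^ j) ^ 2 := by
            rw [← pow_add, ← pow_mul]; congr 1; omega
        _ ≤ (2 ^ j * m.descFactorial j) ^ 2 := Nat.pow_le_pow_left h1 2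
        _ = 4 ^ j * (m.descFactorial j) ^ 2 := by
            rw [mul_pow, ← pow_mul, mul_comm j 2, pow_mul]
            norm_num
        _ ≤ 4 ^ k * (numClasses k P * k ^ k * ∑ G ∈ 𝓕, G.card ^ j) := by
            apply Nat.mul_le_mul _ hb0
            exact Nat.pow_le_pow_right (by norm_num) (by omega)
    have h2R : (m : ℝ) ^ (j + 1) * (m : ℝ) ^ (j - 1) ≤
        (m : ℝ) ^ (j + 1) *
          (((4 ^ k * k ^ k * 3468 : ℕ) : ℝ) * (1 + Real.log P.card) * numClasses k P) := by
      have h3 : ((m ^ (j + 1) * m ^ (j - 1) : ℕ) : ℝ) ≤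
          ((4 ^ k * (numClasses k P * k ^ k * ∑ G ∈ 𝓕, G.card ^ j) : ℕ) : ℝ) := by exact_mod_cast h2
      have h4 : ((4 ^ k * (numClasses k P * k ^ k * ∑ G ∈ 𝓕, G.card ^ j) : ℕ) : ℝ) =
          4 ^ k * (numClasses k P * k ^ k * ((∑ G ∈ 𝓕, G.card ^ j : ℕ) : ℝ)) := by push_cast; rfl
      rw [h4] at h3
      have h5 : ((m ^ (j + 1) * m ^ (j - 1) : ℕ) : ℝ) = (m : ℝ) ^ (j + 1) * (m : ℝ) ^ (j - 1) := by
        push_cast; rfl
      rw [h5] at h3
      refine h3.trans ?_
      calc 4 ^ k * (numClasses k P * k ^ k * ((∑ G ∈ 𝓕, G.card ^ j : ℕ) : ℝ))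
          ≤ 4 ^ k * (numClasses k P * k ^ k * (3468 * (m : ℝ) ^ (j + 1) * (1 + Real.log m))) := by
            gcongr
        _ ≤ 4 ^ k * (numClasses k P * k ^ k *
              (3468 * (m : ℝ) ^ (j + 1) * (1 + Real.log P.card))) := by
            gcongr
        _ = _ := by push_cast; ring
    have h3 : (m : ℝ) ^ (j - 1) ≤
        ((4 ^ k * k ^ k * 3468 : ℕ) : ℝ) * (1 + Real.log P.card) * numClasses k P :=
      le_of_mul_le_mul_left h2R (by positivity)
    have h4 : P.card ≤ 2 * k * C * m := by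
      calc P.card ≤ C * Y.card := hY
        _ ≤ C * (2 * m) := Nat.mul_le_mul_left _ hYm
        _ = 2 * C * m * 1 := by ring
        _ ≤ 2 * C * m * k := Nat.mul_le_mul_left _ (by omega)
        _ = 2 * k * C * m := by ring
    have h4R : (P.card : ℝ) ≤ 2 * k * C * m := by exact_mod_cast h4
    calc (P.card : ℝ) ^ (k - d) ≤ (2 * k * C * m) ^ (k - d) :=
          pow_le_pow_left₀ (by positivity) h4R _
      _ = (2 * k * C) ^ (k - d) * (m : ℝ) ^ (k - d) := by rw [mul_pow]
      _ ≤ (2 * k * C) ^ (k - d) * (m : ℝ) ^ (j - 1) := by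
          apply mul_le_mul_of_nonneg_left _ (by positivity)
          exact pow_le_pow_right₀ hmR (by omega)
      _ ≤ (2 * k * C) ^ (k - d) *
          (((4 ^ k * k ^ k * 3468 : ℕ) : ℝ) * (1 + Real.log P.card) * numClasses k P) := by
          apply mul_le_mul_of_nonneg_left h3 (by positivity)
      _ = _ := by push_cast; ring
  · have h1 : P.card ≤ 2 * k * C := by
      calc P.card ≤ C * Y.card := hY
        _ ≤ C * (2 * k) := Nat.mul_le_mul_left _ (by omega)
        _ = 2 * k * C := by ring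
    have h1R : (P.card : ℝ) ≤ 2 * k * C := by exact_mod_cast h1
    calc (P.card : ℝ) ^ (k - d) ≤ (2 * k * C) ^ (k - d) := pow_le_pow_left₀ (by positivity) h1R _
      _ = (2 * k * C) ^ (k - d) * 1 * 1 * 1 := by ring
      _ ≤ (2 * k * C) ^ (k - d) * ((4 ^ k * k ^ k * 3468 : ℕ) : ℝ) * (1 + Real.log P.card) *
          numClasses k P := by
          gcongr
          linarith
      _ = _ := by push_cast; ring

end Pool.Agent.Lib.MP_b430f2_co
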