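import Mathlib
import Pool.Agent.Lib.MP_b430f2_co.Basic

/-! Upper bound: the boxes `[a]^(d-1) × [a^k]`. -/

namespace Pool.Agent.Lib.MP_b430f2_co

open Finset

variable {e : ℕ}

/-- Integer points of a box, as real points. -/
noncomputable def boxPts (f : Fin (e + 1) → ℕ) : Finset (Fin (e + 1) → ℝ) :=
  (Fintype.piFinset fun i => Finset.range (f i)).image (fun v i => ((v i : ℕ) : ℝ))

theorem mem_boxPts {f : Fin (e + 1) → ℕ} {p : Fin (e + 1) → ℝ} :
    p ∈ boxPts f ↔ ∃ v : Fin (e + 1) → ℕ, (∀ i, v i < f i) ∧ p = fun i => ((v i : ℕ) : ℝ) := by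
  unfold boxPts
  rw [Finset.mem_image]
  constructor
  · rintro ⟨v, hv, rfl⟩
    rw [Fintype.mem_piFinset] at hv
    exact ⟨v, fun i => Finset.mem_range.mp (hv i), rfl⟩
  · rintro ⟨v, hv, rfl⟩
    exact ⟨v, Fintype.mem_piFinset.mpr (fun i => Finset.mem_range.mpr (hv i)), rfl⟩

theorem card_boxPts (f : Fin (e + 1) → ℕ) : (boxPts f).card = ∏ i, f i := by
  unfold boxPts
  rw [Finset.card_image_of_injective]
  · rw [Fintype.card_piFinset]
    simp
  · intro v w h
    funext i
    have h1 : ((v i : ℕ) : ℝ) = ((w i : ℕ) : ℝ) := congrFun h i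
    exact_mod_cast h1

/-- Independence of the constant and the coordinates in `I` on `A`. -/
def Indep (I : Finset (Fin e)) (A : Finset (Fin (e + 1) → ℝ)) : Prop :=
  ∀ (t : Fin e → ℝ) (u : ℝ), (∀ j, j ∉ I → t j = 0) →
    (∀ p ∈ A, ∑ i, t i * p (Fin.castSucc i) + u = 0) → (∀ i, t i = 0) ∧ u = 0

theorem indep_empty {A : Finset (Fin (e + 1) → ℝ)} (hA : A.Nonempty) : Indep ∅ A := by
  intro t u ht h
  have ht' : ∀ i, t i = 0 := fun i => ht i (Finset.notMem_empty i)
  refine ⟨ht', ?_⟩
  obtain ⟨p, hp⟩ := hA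
  have := h p hp
  simpa [ht'] using this

/-- A maximal independent set of coordinates. -/
theorem exists_max_indep {A : Finset (Fin (e + 1) → ℝ)} (hA : A.Nonempty) :
    ∃ I : Finset (Fin e), Indep I A ∧
      ∃ (c : Fin e → Fin e → ℝ) (w : Fin e → ℝ),
        (∀ j i, i ∉ I → c j i = 0) ∧
        ∀ j, j ∉ I → ∀ p ∈ A, p (Fin.castSucc j) = ∑ i, c j i * p (Fin.castSucc i) + w j := by
  classical
  obtain ⟨I, hI, hmax⟩ := Finset.exists_max_image
    ((Finset.univ : Finset (Finset (Fin e))).filter (fun I => Indep I A)) (fun I => I.card)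
    ⟨∅, by simp [indep_empty hA]⟩
  rw [Finset.mem_filter] at hI
  refine ⟨I, hI.2, ?_⟩
  have key : ∀ j, ∃ (c : Fin e → ℝ) (w : ℝ), (∀ i, i ∉ I → c i = 0) ∧
      (j ∉ I → ∀ p ∈ A, p (Fin.castSucc j) = ∑ i, c i * p (Fin.castSucc i) + w) := by
    intro j
    by_cases hj : j ∈ I
    · exact ⟨0, 0, fun i _ => rfl, fun h => absurd hj h⟩
    · have hnot : ¬ Indep (insert j I) A := by
        intro hcon
        have := hmax (insert j I) (by simp [hcon])
        rw [Finset.card_insert_of_notMem hj] at this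
        omega
      unfold Indep at hnot
      push Not at hnot
      obtain ⟨t, u, ht, hsum, hne⟩ := hnot
      have htj : t j ≠ 0 := by
        intro htj
        have := hI.2 t u (by
          intro i hi
          by_cases hij : i = j
          · rw [hij]; exact htj
          · exact ht i (by simp [hij, hi])) hsum
        exact hne this.1 this.2
      refine ⟨fun i => if i = j then 0 else -(t i / t j), -(u / t j), ?_, ?_⟩
      · intro i hi
        by_cases hij : i = j
        · simp [hij]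
        · have : t i = 0 := ht i (by simp [hij, hi])
          simp [this]
      · intro _ p hp
        have h1 := hsum p hp
        have h2 : ∑ i, t i * p (Fin.castSucc i)
            = t j * p (Fin.castSucc j)
              + ∑ i, (if i = j then 0 else t i) * p (Fin.castSucc i) := by
          rw [← Finset.add_sum_erase Finset.univ (fun i => t i * p (Fin.castSucc i))
            (Finset.mem_univ j),
            ← Finset.add_sum_erase Finset.univ
              (fun i => (if i = j then 0 else t i) * p (Fin.castSucc i)) (Finset.mem_univ j)]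
          simp only [if_true, zero_mul, zero_add]
          congr 1
          apply Finset.sum_congr rfl
          intro i hi
          rw [if_neg (Finset.ne_of_mem_erase hi)]
        have h3 : ∑ i, (if i = j then 0 else -(t i / t j)) * p (Fin.castSucc i)
            = -(1 / t j) * ∑ i, (if i = j then 0 else t i) * p (Fin.castSucc i) := by
          rw [Finset.mul_sum]
          apply Finset.sum_congr rfl
          intro i _
          split_ifs
          · ring
          · ring
        rw [h3]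
        rw [h2] at h1
        field_simp
        linarith
  choose c w hc using key
  exact ⟨c, w, fun j i hi => (hc j).1 i hi, fun j hj p hp => (hc j).2 hj p hp⟩

/-- The admissible sets of type `I`. -/
def Adm (k a : ℕ) (I : Finset (Fin e)) (A : Finset (Fin (e + 1) → ℝ)) : Prop :=
  A ⊆ boxPts (fun i => if i = Fin.last e then a ^ k else a) ∧ A.card = k ∧
    (∀ j, j ∉ I → ∀ p ∈ A, p (Fin.castSucc j) = 0) ∧ Indep I A

theorem exists_adm {k a : ℕ} (hk : 1 ≤ k) (ha : 1 ≤ a) {A : Finset (Fin (e + 1) → ℝ)}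
    (hA : A ⊆ boxPts (fun i => if i = Fin.last e then a ^ k else a)) (hc : A.card = k) :
    ∃ I : Finset (Fin e), ∃ A', Adm k a I A' ∧ AffEquivalent A A' := by
  classical
  have hne : A.Nonempty := by
    rw [← Finset.card_pos]; omega
  obtain ⟨I, hI, c, w, hc0, hcw⟩ := exists_max_indep hne
  set N : (Fin (e + 1) → ℝ) →ₗ[ℝ] (Fin (e + 1) → ℝ) :=
    LinearMap.pi (fun l => Fin.lastCases (motive := fun _ => (Fin (e + 1) → ℝ) →ₗ[ℝ] ℝ) 0
      (fun j => if j ∈ I then 0 else
        -(∑ i, c j i • (LinearMap.proj (Fin.castSucc i) : (Fin (e + 1) → ℝ) →ₗ[ℝ] ℝ))) l) with hNdef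
  have hNlast : ∀ p, N p (Fin.last e) = 0 := by
    intro p
    simp [hNdef]
  have hNin : ∀ p j, j ∈ I → N p (Fin.castSucc j) = 0 := by
    intro p j hj
    simp [hNdef, hj]
  have hNout : ∀ p j, j ∉ I → N p (Fin.castSucc j) = -(∑ i, c j i * p (Fin.castSucc i)) := by
    intro p j hj
    simp [hNdef, hj]
  have hNN : N.comp N = 0 := by
    apply LinearMap.ext
    intro x
    funext l
    rw [LinearMap.comp_apply, LinearMap.zero_apply, Pi.zero_apply]
    refine Fin.lastCases ?_ ?_ l
    · exact hNlast _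
    · intro j
      by_cases hj : j ∈ I
      · exact hNin _ j hj
      · rw [hNout _ j hj, neg_eq_zero]
        apply Finset.sum_eq_zero
        intro i _
        by_cases hi : i ∈ I
        · rw [hNin _ i hi, mul_zero]
        · rw [hc0 j i hi, zero_mul]
  set W : Fin (e + 1) → ℝ :=
    fun l => Fin.lastCases (motive := fun _ => ℝ) 0 (fun j => if j ∈ I then 0 else -(w j)) l
    with hWdef
  have hWlast : W (Fin.last e) = 0 := by simp [hWdef]
  have hWin : ∀ j, j ∈ I → W (Fin.castSucc j) = 0 := by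
    intro j hj; simp [hWdef, hj]
  have hWout : ∀ j, j ∉ I → W (Fin.castSucc j) = -(w j) := by
    intro j hj; simp [hWdef, hj]
  set T := shear N hNN W with hT
  have hTlast : ∀ p, T p (Fin.last e) = p (Fin.last e) := by
    intro p
    rw [hT, shear_apply]
    simp only [Pi.add_apply]
    rw [hNlast, hWlast]; ring
  have hTin : ∀ p j, j ∈ I → T p (Fin.castSucc j) = p (Fin.castSucc j) := by
    intro p j hj
    rw [hT, shear_apply]
    simp only [Pi.add_apply]
    rw [hNin _ j hj, hWin j hj]; ring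
  have hTout : ∀ p ∈ A, ∀ j, j ∉ I → T p (Fin.castSucc j) = 0 := by
    intro p hp j hj
    rw [hT, shear_apply]
    simp only [Pi.add_apply]
    rw [hNout _ j hj, hWout j hj, hcw j hj p hp]; ring
  refine ⟨I, A.image T, ⟨?_, ?_, ?_, ?_⟩, ⟨T, by simp⟩⟩
  · intro q hq
    rw [Finset.mem_image] at hq
    obtain ⟨p, hp, rfl⟩ := hq
    obtain ⟨v, hv, hpv⟩ := mem_boxPts.mp (hA hp)
    rw [mem_boxPts]
    refine ⟨fun l => Fin.lastCases (motive := fun _ => ℕ) (v (Fin.last e))
      (fun j => if j ∈ I then v (Fin.castSucc j) else 0) l, ?_, ?_⟩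
    · intro l
      refine Fin.lastCases ?_ ?_ l
      · have := hv (Fin.last e)
        simpa using this
      · intro j
        have := hv (Fin.castSucc j)
        rw [if_neg (Fin.castSucc_ne_last j)] at this
        by_cases hj : j ∈ I
        · simpa [hj, Fin.castSucc_ne_last j] using this
        · simp only [Fin.lastCases_castSucc, if_neg hj, if_neg (Fin.castSucc_ne_last j)]
          omega
    · funext l
      refine Fin.lastCases ?_ ?_ l
      · rw [hTlast, hpv]; simp
      · intro j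
        by_cases hj : j ∈ I
        · rw [hTin _ j hj, hpv]; simp [hj]
        · rw [hTout p hp j hj]; simp [hj]
  · rw [Finset.card_image_of_injective _ T.injective, hc]
  · intro j hj q hq
    rw [Finset.mem_image] at hq
    obtain ⟨p, hp, rfl⟩ := hq
    exact hTout p hp j hj
  · intro t u ht h
    apply hI t u ht
    intro p hp
    have := h (T p) (Finset.mem_image_of_mem _ hp)
    rw [← this]
    congr 1
    apply Finset.sum_congr rfl
    intro i _
    by_cases hi : i ∈ I
    · rw [hTin _ i hi]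
    · rw [ht i hi, zero_mul, zero_mul]

/-- The group element with translation `s`, shear `t` and height shift `u`. -/
noncomputable def hN (t : Fin e → ℕ) : (Fin (e + 1) → ℝ) →ₗ[ℝ] (Fin (e + 1) → ℝ) :=
  LinearMap.pi (fun l => Fin.lastCases (motive := fun _ => (Fin (e + 1) → ℝ) →ₗ[ℝ] ℝ)
    (∑ i, (t i : ℝ) • (LinearMap.proj (Fin.castSucc i) : (Fin (e + 1) → ℝ) →ₗ[ℝ] ℝ))
    (fun _ => 0) l)

theorem hN_last (t : Fin e → ℕ) (p : Fin (e + 1) → ℝ) :
    hN t p (Fin.last e) = ∑ i, (t i : ℝ) * p (Fin.castSucc i) := by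
  simp [hN]

theorem hN_castSucc (t : Fin e → ℕ) (p : Fin (e + 1) → ℝ) (j : Fin e) :
    hN t p (Fin.castSucc j) = 0 := by
  simp [hN]

theorem hN_sq (t : Fin e → ℕ) : (hN t).comp (hN t) = 0 := by
  apply LinearMap.ext
  intro x
  funext l
  rw [LinearMap.comp_apply, LinearMap.zero_apply, Pi.zero_apply]
  refine Fin.lastCases ?_ ?_ l
  · rw [hN_last]
    apply Finset.sum_eq_zero
    intro i _
    rw [hN_castSucc, mul_zero]
  · intro j
    exact hN_castSucc _ _ j

noncomputable def hW (s : Fin e → ℕ) (u : ℕ) : Fin (e + 1) → ℝ :=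
  fun l => Fin.lastCases (motive := fun _ => ℝ) (u : ℝ) (fun j => (s j : ℝ)) l

noncomputable def gT (g : (Fin e → ℕ) × (Fin e → ℕ) × ℕ) :
    (Fin (e + 1) → ℝ) ≃ᵃ[ℝ] (Fin (e + 1) → ℝ) :=
  shear (hN g.2.1) (hN_sq g.2.1) (hW g.1 g.2.2)

theorem gT_last (g : (Fin e → ℕ) × (Fin e → ℕ) × ℕ) (p : Fin (e + 1) → ℝ) :
    gT g p (Fin.last e) = p (Fin.last e) + ∑ i, (g.2.1 i : ℝ) * p (Fin.castSucc i) + g.2.2 := by
  rw [gT, shear_apply]
  simp [hN_last, hW]

theorem gT_castSucc (g : (Fin e → ℕ) × (Fin e → ℕ) × ℕ) (p : Fin (e + 1) → ℝ) (j : Fin e) :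
    gT g p (Fin.castSucc j) = p (Fin.castSucc j) + g.1 j := by
  rw [gT, shear_apply]
  simp [hN_castSucc, hW]

/-- The family of maps used for type `I`. -/
def fam (k a : ℕ) (I : Finset (Fin e)) : Finset ((Fin e → ℕ) × (Fin e → ℕ) × ℕ) :=
  (Fintype.piFinset fun i => Finset.range (if i ∈ I then a else 1)) ×ˢ
    (Fintype.piFinset fun i => Finset.range (if i ∈ I then a ^ (k - 1) else 1)) ×ˢ
      Finset.range (a ^ k)

theorem mem_fam {k a : ℕ} {I : Finset (Fin e)} {g : (Fin e → ℕ) × (Fin e → ℕ) × ℕ} :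
    g ∈ fam k a I ↔ (∀ i, g.1 i < if i ∈ I then a else 1) ∧
      (∀ i, g.2.1 i < if i ∈ I then a ^ (k - 1) else 1) ∧ g.2.2 < a ^ k := by
  unfold fam
  simp only [Finset.mem_product, Fintype.mem_piFinset, Finset.mem_range]

theorem prod_ite_card (I : Finset (Fin e)) (x : ℕ) :
    ∏ i : Fin e, (if i ∈ I then x else 1) = x ^ I.card := by
  rw [Finset.prod_ite_mem, Finset.univ_inter, Finset.prod_const]

theorem card_fam (k a : ℕ) (I : Finset (Fin e)) :
    (fam k a I).card = a ^ I.card * ((a ^ (k - 1)) ^ I.card * a ^ k) := by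
  unfold fam
  rw [Finset.card_product, Finset.card_product, Fintype.card_piFinset, Fintype.card_piFinset,
    Finset.card_range]
  simp only [Finset.card_range]
  rw [prod_ite_card, prod_ite_card]

/-- The big box of type `I`. -/
noncomputable def bigBox (k a : ℕ) (I : Finset (Fin e)) : Finset (Fin (e + 1) → ℝ) :=
  boxPts (fun l => Fin.lastCases (motive := fun _ => ℕ) ((e + 2) * a ^ k)
    (fun i => if i ∈ I then 2 * a else 1) l)

theorem card_bigBox (k a : ℕ) (I : Finset (Fin e)) :
    (bigBox k a I).card = (2 * a) ^ I.card * ((e + 2) * a ^ k) := by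
  unfold bigBox
  rw [card_boxPts, Fin.prod_univ_castSucc]
  simp only [Fin.lastCases_castSucc, Fin.lastCases_last]
  rw [prod_ite_card]

theorem gT_mem_bigBox {k a : ℕ} (hk : 1 ≤ k) {I : Finset (Fin e)}
    {A : Finset (Fin (e + 1) → ℝ)} (hA : Adm k a I A) {p : Fin (e + 1) → ℝ} (hp : p ∈ A)
    {g : (Fin e → ℕ) × (Fin e → ℕ) × ℕ} (hg : g ∈ fam k a I) : gT g p ∈ bigBox k a I := by
  obtain ⟨hAb, -, hA0, -⟩ := hA
  obtain ⟨v, hv, hpv⟩ := mem_boxPts.mp (hAb hp)
  obtain ⟨hg1, hg2, hg3⟩ := mem_fam.mp hg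
  unfold bigBox
  rw [mem_boxPts]
  have hv0 : ∀ j, j ∉ I → v (Fin.castSucc j) = 0 := by
    intro j hj
    have h1 := hA0 j hj p hp
    rw [hpv] at h1
    have h2 : ((v (Fin.castSucc j) : ℕ) : ℝ) = 0 := h1
    exact_mod_cast h2
  have hvlt : ∀ j, v (Fin.castSucc j) < a := by
    intro j
    have := hv (Fin.castSucc j)
    rwa [if_neg (Fin.castSucc_ne_last j)] at this
  have hvl : v (Fin.last e) < a ^ k := by
    have := hv (Fin.last e)
    rwa [if_pos rfl] at this
  refine ⟨fun l => Fin.lastCases (motive := fun _ => ℕ)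
    (v (Fin.last e) + ∑ i, g.2.1 i * v (Fin.castSucc i) + g.2.2)
    (fun j => v (Fin.castSucc j) + g.1 j) l, ?_, ?_⟩
  · intro l
    refine Fin.lastCases ?_ ?_ l
    · simp only [Fin.lastCases_last]
      have hsum : ∑ i, g.2.1 i * v (Fin.castSucc i) ≤ ∑ _i : Fin e, a ^ k := by
        apply Finset.sum_le_sum
        intro i _
        by_cases hi : i ∈ I
        · have h2 := hg2 i
          rw [if_pos hi] at h2
          calc g.2.1 i * v (Fin.castSucc i) ≤ a ^ (k - 1) * a :=
                Nat.mul_le_mul h2.le (hvlt i).le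
            _ = a ^ k := by rw [← pow_succ]; congr 1; omega
        · rw [hv0 i hi, mul_zero]; exact Nat.zero_le _
      rw [Finset.sum_const, Finset.card_univ, Fintype.card_fin, smul_eq_mul] at hsum
      have : (e + 2) * a ^ k = e * a ^ k + a ^ k + a ^ k := by ring
      omega
    · intro j
      simp only [Fin.lastCases_castSucc]
      have h1 := hg1 j
      by_cases hj : j ∈ I
      · rw [if_pos hj] at h1 ⊢
        have := hvlt j
        omega
      · rw [if_neg hj] at h1 ⊢
        have := hv0 j hj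
        omega
  · funext l
    refine Fin.lastCases ?_ ?_ l
    · rw [gT_last, hpv]
      simp
    · intro j
      rw [gT_castSucc, hpv]
      simp

/-- The classes of type `I`. -/
def typeSet (k a : ℕ) (I : Finset (Fin e)) : Set (Set (Finset (Fin (e + 1) → ℝ))) :=
  {c | ∃ A, Adm k a I A ∧ c = affClass A}

theorem typeSet_finite (k a : ℕ) (I : Finset (Fin e)) : (typeSet k a I).Finite := by
  apply (classSet_finite k (boxPts (fun i => if i = Fin.last e then a ^ k else a))).subset
  rintro c ⟨A, hA, rfl⟩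
  exact ⟨A, hA.1, hA.2.1, rfl⟩

theorem typeSet_mul_le {k a : ℕ} (hk : 1 ≤ k) (I : Finset (Fin e)) :
    (typeSet k a I).ncard * (fam k a I).card ≤ (bigBox k a I).card ^ k := by
  classical
  have hchoice : ∀ c : Set (Finset (Fin (e + 1) → ℝ)), ∃ (A : Finset (Fin (e + 1) → ℝ))
      (q : Fin k → (Fin (e + 1) → ℝ)), c ∈ typeSet k a I →
        (Adm k a I A ∧ c = affClass A ∧ Set.range q = (A : Set (Fin (e + 1) → ℝ))) := by
    intro c
    by_cases hc : c ∈ typeSet k a I
    · obtain ⟨A, hA, hcA⟩ := hc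
      have hcard := hA.2.1
      refine ⟨A, fun i => (((Finset.equivFinOfCardEq hcard).symm i : A) : Fin (e + 1) → ℝ),
        fun _ => ⟨hA, hcA, ?_⟩⟩
      ext x
      constructor
      · rintro ⟨i, rfl⟩
        exact ((Finset.equivFinOfCardEq hcard).symm i).2
      · intro hx
        exact ⟨Finset.equivFinOfCardEq hcard ⟨x, hx⟩, by simp⟩
    · exact ⟨∅, fun _ => 0, fun h => absurd h hc⟩
  choose A q hAq using hchoice
  rw [Set.ncard_eq_toFinset_card _ (typeSet_finite k a I), ← Finset.card_product]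
  have hcardpi : (bigBox k a I).card ^ k
      = (Fintype.piFinset (fun _ : Fin k => bigBox k a I)).card := by
    rw [Fintype.card_piFinset]; simp
  rw [hcardpi]
  apply Finset.card_le_card_of_injOn (fun x => fun i => gT x.2 (q x.1 i))
  · rintro ⟨c, g⟩ hx
    rw [Finset.mem_coe, Finset.mem_product, Set.Finite.mem_toFinset] at hx
    obtain ⟨hc, hg⟩ := hx
    obtain ⟨hAdm, hcA, hr⟩ := hAq c hc
    rw [Finset.mem_coe, Fintype.mem_piFinset]
    intro i
    have hqi : q c i ∈ A c := by
      have : q c i ∈ Set.range (q c) := ⟨i, rfl⟩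
      rw [hr] at this
      exact this
    exact gT_mem_bigBox hk hAdm hqi hg
  · rintro ⟨c, g⟩ hx ⟨c', g'⟩ hx' heq
    rw [Finset.mem_coe, Finset.mem_product, Set.Finite.mem_toFinset] at hx hx'
    obtain ⟨hc, hg⟩ := hx
    obtain ⟨hc', hg'⟩ := hx'
    obtain ⟨hAdm, hcA, hr⟩ := hAq c hc
    obtain ⟨hAdm', hcA', hr'⟩ := hAq c' hc'
    have hfun : ∀ i, gT g (q c i) = gT g' (q c' i) := fun i => congrFun heq i
    have himg : gT g '' (A c : Set (Fin (e + 1) → ℝ)) = gT g' '' (A c' : Set _) := by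
      rw [← hr, ← hr', ← Set.range_comp, ← Set.range_comp]
      congr 1
    have hcc : c = c' := by
      rw [hcA, hcA', affClass_eq_iff]
      refine ⟨(gT g).trans (gT g').symm, ?_⟩
      have : ((gT g).trans (gT g').symm : (Fin (e + 1) → ℝ) → (Fin (e + 1) → ℝ))
          '' (A c : Set (Fin (e + 1) → ℝ)) = (gT g').symm '' (gT g '' (A c : Set _)) := by
        rw [← Set.image_comp]; rfl
      rw [this, himg, ← Set.image_comp]
      simp
    subst hcc
    have hpt : ∀ p ∈ A c, gT g p = gT g' p := by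
      intro p hp
      have : p ∈ Set.range (q c) := by rw [hr]; exact hp
      obtain ⟨i, rfl⟩ := this
      exact hfun i
    have hne : (A c).Nonempty := by
      rw [← Finset.card_pos, hAdm.2.1]; omega
    have h1 : g.1 = g'.1 := by
      funext j
      obtain ⟨p, hp⟩ := hne
      have := congrFun (hpt p hp) (Fin.castSucc j)
      rw [gT_castSucc, gT_castSucc] at this
      have h2 : ((g.1 j : ℕ) : ℝ) = ((g'.1 j : ℕ) : ℝ) := by linarith
      exact_mod_cast h2
    have h2 := hAdm.2.2.2 (fun i => (g.2.1 i : ℝ) - (g'.2.1 i : ℝ)) ((g.2.2 : ℝ) - g'.2.2)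
      (by
        intro j hj
        have e1 : g.2.1 j < 1 := by
          have := (mem_fam.mp hg).2.1 j
          rwa [if_neg hj] at this
        have e2 : g'.2.1 j < 1 := by
          have := (mem_fam.mp hg').2.1 j
          rwa [if_neg hj] at this
        have e3 : g.2.1 j = 0 := by omega
        have e4 : g'.2.1 j = 0 := by omega
        rw [e3, e4, sub_self])
      (by
        intro p hp
        have := congrFun (hpt p hp) (Fin.last e)
        rw [gT_last, gT_last] at this
        simp only [sub_mul, Finset.sum_sub_distrib]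
        linarith)
    obtain ⟨h3, h4⟩ := h2
    have h5 : g.2.1 = g'.2.1 := by
      funext i
      have := h3 i
      have h6 : ((g.2.1 i : ℕ) : ℝ) = ((g'.2.1 i : ℕ) : ℝ) := by linarith
      exact_mod_cast h6
    have h7 : g.2.2 = g'.2.2 := by
      have h6 : ((g.2.2 : ℕ) : ℝ) = ((g'.2.2 : ℕ) : ℝ) := by linarith
      exact_mod_cast h6
    exact Prod.ext rfl (Prod.ext h1 (Prod.ext h5 h7))

theorem typeSet_le {k a : ℕ} (hk : 1 ≤ k) (ha : 1 ≤ a) (I : Finset (Fin e)) :
    (typeSet k a I).ncard ≤ (2 ^ e * (e + 2)) ^ k * a ^ (k * (k - 1)) := by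
  have h := typeSet_mul_le (a := a) hk I
  rw [card_fam, card_bigBox] at h
  set m := I.card with hm
  have hme : m ≤ e := by
    have := Finset.card_le_univ I
    simpa using this
  have hpos : 0 < a ^ m * ((a ^ (k - 1)) ^ m * a ^ k) := by positivity
  apply Nat.le_of_mul_le_mul_right _ hpos
  refine h.trans ?_
  have e1 : a ^ m * ((a ^ (k - 1)) ^ m * a ^ k) = a ^ (k * m + k) := by
    rw [← pow_mul, ← pow_add, ← pow_add]
    congr 1
    obtain ⟨k', rfl⟩ := Nat.exists_eq_add_of_le' hk
    simp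
    ring
  have e2 : ((2 * a) ^ m * ((e + 2) * a ^ k)) ^ k
      = (2 ^ m * (e + 2)) ^ k * (a ^ (k * (k - 1)) * a ^ (k * m + k)) := by
    rw [← pow_add]
    have : k * (k - 1) + (k * m + k) = (m + k) * k := by
      obtain ⟨k', rfl⟩ := Nat.exists_eq_add_of_le' hk
      simp
      ring
    rw [this, pow_mul, ← mul_pow, mul_pow 2 a m, pow_add]
    ring
  rw [e1, e2]
  have e3 : (2 ^ m * (e + 2)) ^ k ≤ (2 ^ e * (e + 2)) ^ k := by
    apply Nat.pow_le_pow_left
    apply Nat.mul_le_mul_right
    exact Nat.pow_le_pow_right (by norm_num) hme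
  calc (2 ^ m * (e + 2)) ^ k * (a ^ (k * (k - 1)) * a ^ (k * m + k))
      ≤ (2 ^ e * (e + 2)) ^ k * (a ^ (k * (k - 1)) * a ^ (k * m + k)) :=
        Nat.mul_le_mul_right _ e3
    _ = (2 ^ e * (e + 2)) ^ k * a ^ (k * (k - 1)) * a ^ (k * m + k) := by ring

/-- The number of classes of `k`-subsets of the box. -/
theorem numClasses_box {k a : ℕ} (hk : 1 ≤ k) (ha : 1 ≤ a) :
    numClasses k (boxPts (e := e) (fun i => if i = Fin.last e then a ^ k else a))
      ≤ 2 ^ e * ((2 ^ e * (e + 2)) ^ k * a ^ (k * (k - 1))) := by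
  classical
  rw [numClasses_eq]
  have hsub : classSet k (boxPts (e := e) (fun i => if i = Fin.last e then a ^ k else a))
      ⊆ ⋃ I ∈ (Finset.univ : Finset (Finset (Fin e))), typeSet k a I := by
    rintro c ⟨A, hA, hc, rfl⟩
    obtain ⟨I, A', hAdm, heq⟩ := exists_adm hk ha hA hc
    simp only [Set.mem_iUnion]
    exact ⟨I, Finset.mem_univ _, A', hAdm, affClass_eq_iff.mpr heq⟩
  have hfin : (⋃ I ∈ (Finset.univ : Finset (Finset (Fin e))), typeSet k a I).Finite :=
    Set.Finite.biUnion (Finset.finite_toSet _) (fun I _ => typeSet_finite k a I)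
  refine (Set.ncard_le_ncard hsub hfin).trans ?_
  refine (Finset.set_ncard_biUnion_le _ _).trans ?_
  calc ∑ I ∈ (Finset.univ : Finset (Finset (Fin e))), (typeSet k a I).ncard
      ≤ ∑ _I ∈ (Finset.univ : Finset (Finset (Fin e))),
        (2 ^ e * (e + 2)) ^ k * a ^ (k * (k - 1)) :=
        Finset.sum_le_sum (fun I _ => typeSet_le hk ha I)
    _ = 2 ^ e * ((2 ^ e * (e + 2)) ^ k * a ^ (k * (k - 1))) := by
        rw [Finset.sum_const, Finset.card_univ, Fintype.card_finset, Fintype.card_fin,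
          smul_eq_mul]

end Pool.Agent.Lib.MP_b430f2_co
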