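import Mathlib
import Pool.Agent.Lib.MP_b430f2_co.Upper

/-! Upper bound `f_d(k,n) ≤ C n^(k(k-1)/(k+d-1))` for all `d` and `k`. -/

namespace Pool.Agent.Lib.MP_b430f2_co

/-- For all `d, k ≥ 1` there is `C > 0` such that `f_d(k,n) ≤ C n^(k(k-1)/(k+d-1))` for all
`n ≥ 1`. -/
theorem upper_bound (d k : ℕ) (hd : 1 ≤ d) (hk : 1 ≤ k) :
    ∃ C : ℝ, 0 < C ∧ ∀ n : ℕ, 1 ≤ n →
      (fmin d k n : ℝ) ≤ C * (n : ℝ) ^ (((k : ℝ) * ((k : ℝ) - 1)) / ((k : ℝ) + (d : ℝ) - 1)) := by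
  obtain ⟨e, rfl⟩ := Nat.exists_eq_add_of_le' hd
  refine ⟨((2 ^ e * ((2 ^ e * (e + 2)) ^ k * 2 ^ (k * (k - 1))) : ℕ) : ℝ), by positivity, ?_⟩
  intro n hn
  have hn1 : (1 : ℝ) ≤ n := by exact_mod_cast hn
  have hke : (0 : ℝ) < (k : ℝ) + e := by
    have : (1 : ℝ) ≤ k := by exact_mod_cast hk
    positivity
  -- the side length
  set x : ℝ := (n : ℝ) ^ (1 / ((k : ℝ) + e)) with hx
  have hx1 : 1 ≤ x := Real.one_le_rpow hn1 (by positivity)
  set a : ℕ := ⌈x⌉₊ with ha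
  have hxa : x ≤ a := Nat.le_ceil x
  have ha1 : 1 ≤ a := by
    have : (1 : ℝ) ≤ a := hx1.trans hxa
    exact_mod_cast this
  have ha2 : (a : ℝ) ≤ 2 * x := by
    have := Nat.ceil_lt_add_one (by linarith : 0 ≤ x)
    rw [← ha] at this
    linarith
  -- the box has at least `n` points
  set B := boxPts (e := e) (fun i => if i = Fin.last e then a ^ k else a) with hB
  have hcard : B.card = a ^ (k + e) := by
    rw [hB, card_boxPts, Fin.prod_univ_castSucc]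
    simp only [Fin.castSucc_ne_last, if_false, if_true, Finset.prod_const, Finset.card_univ,
      Fintype.card_fin]
    rw [← pow_add]
    congr 1
    omega
  have hnB : n ≤ B.card := by
    rw [hcard]
    have h1 : (n : ℝ) = x ^ (k + e) := by
      rw [hx, ← Real.rpow_natCast, ← Real.rpow_mul (by positivity)]
      push_cast
      rw [one_div, inv_mul_cancel₀ hke.ne', Real.rpow_one]
    have h2 : (n : ℝ) ≤ (a : ℝ) ^ (k + e) := by
      rw [h1]
      exact pow_le_pow_left₀ (by linarith) hxa _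
    exact_mod_cast h2
  obtain ⟨P, hPB, hP⟩ := Finset.exists_subset_card_eq hnB
  have h1 : fmin (e + 1) k n ≤ 2 ^ e * ((2 ^ e * (e + 2)) ^ k * a ^ (k * (k - 1))) :=
    (fmin_le P hP).trans ((numClasses_mono k hPB).trans (numClasses_box hk ha1))
  have h2 : (a : ℝ) ^ (k * (k - 1))
      ≤ 2 ^ (k * (k - 1)) * (n : ℝ) ^ (((k : ℝ) * ((k : ℝ) - 1)) / ((k : ℝ) + ((e + 1 : ℕ) : ℝ) - 1)) := by
    calc (a : ℝ) ^ (k * (k - 1)) ≤ (2 * x) ^ (k * (k - 1)) :=
          pow_le_pow_left₀ (by positivity) ha2 _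
      _ = 2 ^ (k * (k - 1)) * x ^ (k * (k - 1)) := by rw [mul_pow]
      _ = 2 ^ (k * (k - 1)) * (n : ℝ) ^ (((k : ℝ) * ((k : ℝ) - 1)) /
            ((k : ℝ) + ((e + 1 : ℕ) : ℝ) - 1)) := by
          congr 1
          rw [hx, ← Real.rpow_natCast, ← Real.rpow_mul (by positivity)]
          congr 1
          push_cast [Nat.cast_sub hk]
          rw [one_div]
          have : (k : ℝ) + (e + 1) - 1 = k + e := by ring
          rw [this]
          field_simp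
  calc (fmin (e + 1) k n : ℝ)
      ≤ ((2 ^ e * ((2 ^ e * (e + 2)) ^ k * a ^ (k * (k - 1))) : ℕ) : ℝ) := by exact_mod_cast h1
    _ = (2 ^ e * (2 ^ e * (e + 2)) ^ k : ℝ) * (a : ℝ) ^ (k * (k - 1)) := by
        push_cast; ring
    _ ≤ (2 ^ e * (2 ^ e * (e + 2)) ^ k : ℝ) * (2 ^ (k * (k - 1)) *
          (n : ℝ) ^ (((k : ℝ) * ((k : ℝ) - 1)) / ((k : ℝ) + ((e + 1 : ℕ) : ℝ) - 1))) := by
        apply mul_le_mul_of_nonneg_left h2
        positivity
    _ = _ := by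
        push_cast; ring

end Pool.Agent.Lib.MP_b430f2_co
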